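import Pool.Agent.W878.VC.Mod

set_option autoImplicit false

/-!
Graphs without infinite clique subdivisions and their complements.
-/

namespace Pool.Agent.W878.VC

open Set MeasureTheory Relation
open Pool.Agent.H533R2.VO (RS)
open Pool.Agent.H533R2.VS (VCu US UIso UDich Coan Inv Canon)
open Pool.Agent.H899R2.VP (gaifman HasCliqueSubdivision)

/-- The complement. -/
def cm (x : RS a2) : RS a2 :=
  fun i v => if i = 0 then decide (v 0 ≠ v 1) && !x 0 v else false

theorem cm_cont : Continuous cm := by
  refine continuous_pi fun i => continuous_pi fun v => ?_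
  by_cases h : i = 0
  · simp only [cm, h, if_true]
    have h1 : Continuous fun x : RS a2 => x 0 v :=
      (continuous_apply v).comp (continuous_apply 0)
    have h2 : Continuous fun p : Bool => decide (v 0 ≠ v 1) && !p :=
      continuous_of_discreteTopology
    exact h2.comp h1
  · simp only [cm, h, if_false]
    exact continuous_const

theorem canon_cm : Canon cm cm := by
  have h : ∀ (σ : Equiv.Perm ℕ) (x : RS a2),
      cm (Pool.Agent.H533R2.VS.act σ x) = Pool.Agent.H533R2.VS.act σ (cm x) := by
    intro σ x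
    funext i v
    show (if i = 0 then decide (v 0 ≠ v 1) && !x 0 (⇑σ.symm ∘ v) else false) =
      if i = 0 then decide (σ.symm (v 0) ≠ σ.symm (v 1)) && !x 0 (⇑σ.symm ∘ v) else false
    by_cases hi : i = 0
    · rw [if_pos hi, if_pos hi]
      congr 1
      rw [decide_eq_decide]
      exact (σ.symm.injective.ne_iff).symm
    · rw [if_neg hi, if_neg hi]
  exact ⟨cm_cont.measurable, cm_cont, h, h⟩

/-- Sparse graphs. -/
def Sp (x : RS a2) : Prop := ¬ HasCliqueSubdivision (gaifman x)

theorem vcu_sp : VCu (fun x : RS a2 => Sp x ∨ (Sp (cm x) ∧ cm (cm x) = x)) := by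
  have h1 : VCu Sp := Pool.Agent.H533R2.VS.vs_sparse a2
  obtain ⟨h2, h3⟩ := Pool.Agent.H533R2.VS.vs_ksp a2
  obtain ⟨h4, h5⟩ := Pool.Agent.H533R2.VS.vs_exk a2 a2 cm cm canon_cm Sp h2 h3
  exact Pool.Agent.H533R2.VS.vs_uni a2 _ _ h1
    (Pool.Agent.H533R2.VS.vs_exc a2 a2 cm cm canon_cm Sp h1) h2 h4 h3 h5

/-- The relation of a graph. -/
def Of (V : SimpleGraph ℕ → Prop) (r : Fin 1 → ℕ → ℕ → Bool) : Prop :=
  ∃ G : SimpleGraph ℕ, V G ∧ ∀ u v, r 0 u v = true ↔ G.Adj u v

theorem vs_base : VS (Of fun G => ¬ HasCliqueSubdivision G ∨ ¬ HasCliqueSubdivision Gᶜ) := by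
  refine vs_of_vcu vcu_sp ?_
  rintro x ⟨G, hG, hx⟩
  have k0 : ∀ v : Fin 2 → ℕ, (em x).1 0 v = true ↔ G.Adj (v 0) (v 1) := by
    intro v
    exact hx (v 0) (v 1)
  have k1 : ∀ (i : ℕ) (v : Fin 2 → ℕ), i ≠ 0 → (em x).1 i v = false := by
    intro i v hi
    unfold em
    exact dif_neg (by omega)
  rcases hG with h | h
  · left
    have e : gaifman (em x).1 = G := by
      ext u v
      constructor
      · rintro ⟨huv, i, t, h1, ⟨j, rfl⟩, ⟨l, rfl⟩⟩
        by_cases hi : i = 0
        · subst hi
          have h2 := (k0 t).1 h1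
          match j, l, huv with
          | 0, 1, _ => exact h2
          | 1, 0, _ => exact h2.symm
          | 0, 0, hh => exact absurd rfl hh
          | 1, 1, hh => exact absurd rfl hh
        · rw [k1 i t hi] at h1
          exact absurd h1 (by decide)
      · intro huv
        exact ⟨huv.ne, 0, ![u, v], (k0 _).2 huv, ⟨0, rfl⟩, ⟨1, rfl⟩⟩
    show ¬ HasCliqueSubdivision (gaifman (em x).1)
    rw [e]
    exact h
  · right
    have c0 : ∀ v : Fin 2 → ℕ, cm (em x).1 0 v = true ↔ Gᶜ.Adj (v 0) (v 1) := by
      intro v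
      show (if 0 = 0 then decide (v 0 ≠ v 1) && !(em x).1 0 v else false) = true ↔ _
      rw [if_pos rfl, Bool.and_eq_true, decide_eq_true_iff, SimpleGraph.compl_adj, Bool.not_eq_true',
        ← Bool.not_eq_true, k0]
    have c1 : ∀ (i : ℕ) (v : Fin 2 → ℕ), i ≠ 0 → cm (em x).1 i v = false := by
      intro i v hi
      exact if_neg hi
    constructor
    · have e : gaifman (cm (em x).1) = Gᶜ := by
        ext u v
        constructor
        · rintro ⟨huv, i, t, h1, ⟨j, rfl⟩, ⟨l, rfl⟩⟩
          by_cases hi : i = 0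
          · subst hi
            have h2 := (c0 t).1 h1
            match j, l, huv with
            | 0, 1, _ => exact h2
            | 1, 0, _ => exact h2.symm
            | 0, 0, hh => exact absurd rfl hh
            | 1, 1, hh => exact absurd rfl hh
          · rw [c1 i t hi] at h1
            exact absurd h1 (by decide)
        · intro huv
          exact ⟨huv.ne, 0, ![u, v], (c0 _).2 huv, ⟨0, rfl⟩, ⟨1, rfl⟩⟩
      show ¬ HasCliqueSubdivision (gaifman (cm (em x).1))
      rw [e]
      exact h
    · funext i v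
      by_cases hi : i = 0
      · subst hi
        rw [Bool.eq_iff_iff, k0]
        show (if 0 = 0 then decide (v 0 ≠ v 1) && !cm (em x).1 0 v else false) = true ↔ _
        rw [if_pos rfl, Bool.and_eq_true, decide_eq_true_iff, Bool.not_eq_true',
          ← Bool.not_eq_true, c0, SimpleGraph.compl_adj]
        constructor
        · rintro ⟨h1, h2⟩
          by_contra h3
          exact h2 ⟨h1, h3⟩
        · intro h1
          exact ⟨h1.ne, fun h2 => h2.2 h1⟩
      · rw [k1 i v hi]
        exact if_neg hi

end Pool.Agent.W878.VC
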