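import Pool.Agent.W878.VC.Spc

set_option autoImplicit false

/-!
Codings of classes of relational structures with finitely many parameters by binary relations and
marks.
-/

namespace Pool.Agent.W878.VC

open Set MeasureTheory
open Pool.Agent.H533R2.VO (RS)
open Pool.Agent.H533R2.VS (VCu US UIso UDich)

/-- Relabelling of structures. -/
def aR {a : ℕ → ℕ} (σ : Equiv.Perm ℕ) (x : RS a) : RS a := fun i v => x i (⇑σ⁻¹ ∘ v)

/-- Relabelling of binary relations. -/
def aF {m : ℕ} (σ : Equiv.Perm ℕ) (r : Fin m → ℕ → ℕ → Bool) : Fin m → ℕ → ℕ → Bool :=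
  fun i u v => r i (σ⁻¹ u) (σ⁻¹ v)

/-- The unary predicates together with the marks of the parameters. -/
def mk {k : ℕ} (p : Fin k → ℕ) (c : ℕ → ℕ → Bool) : ℕ → ℕ → Bool :=
  fun j u => if h : j < k then decide (u = p ⟨j, h⟩) else c (j - k) u

theorem mk_inj {k : ℕ} {p q : Fin k → ℕ} {c d : ℕ → ℕ → Bool} (h : mk p c = mk q d) :
    p = q ∧ c = d := by
  constructor
  · funext j
    have h1 := congrFun (congrFun h j.1) (p j)
    simp only [mk, j.2, dif_pos, decide_true] at h1
    simpa using h1.symm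
  · funext j u
    have h1 := congrFun (congrFun h (j + k)) u
    simp only [mk] at h1
    rw [dif_neg (by omega), dif_neg (by omega)] at h1
    simpa using h1

theorem mk_cont {k : ℕ} : Continuous fun q : (ℕ → ℕ → Bool) × (Fin k → ℕ) => mk q.2 q.1 := by
  refine continuous_pi fun j => continuous_pi fun u => ?_
  by_cases h : j < k
  · simp only [mk, h, dif_pos]
    have h1 : Continuous fun n : ℕ => decide (u = n) := continuous_of_discreteTopology
    exact h1.comp ((continuous_apply _).comp continuous_snd)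
  · simp only [mk, h, dif_neg, not_false_eq_true]
    exact (continuous_apply u).comp ((continuous_apply _).comp continuous_fst)

theorem mk_act {k : ℕ} (σ : Equiv.Perm ℕ) (p : Fin k → ℕ) (c : ℕ → ℕ → Bool) :
    mk (⇑σ ∘ p) (fun i u => c i (σ⁻¹ u)) = fun j u => mk p c j (σ⁻¹ u) := by
  funext j u
  unfold mk
  by_cases h : j < k
  · simp only [h, dif_pos, Function.comp]
    rw [decide_eq_decide]
    constructor
    · rintro rfl
      exact σ.symm_apply_apply _
    · intro h1
      rw [← h1]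
      exact (σ.apply_symm_apply u).symm
  · simp only [h, dif_neg, not_false_eq_true]

theorem cs_of (α : Type) [MeasurableSpace α] [StandardBorelSpace α] :
    MeasurableSpace.CountablySeparated α := inferInstance

theorem code {a : ℕ → ℕ} {m k : ℕ} {W : RS a → Prop} {V : (Fin m → ℕ → ℕ → Bool) → Prop}
    (hV : VS V) (R : RS a → (Fin m → ℕ → ℕ → Bool)) (hR : Continuous R)
    (hRe : ∀ σ x, R (aR σ x) = aF σ (R x)) (P : RS a → (Fin k → ℕ) → Prop)
    (hPm : MeasurableSet {q : RS a × (Fin k → ℕ) | P q.1 q.2})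
    (hPi : ∀ x p σ, P x p → P (aR σ x) (⇑σ ∘ p)) (hex : ∀ x, W x → ∃ p, P x p)
    (hinj : ∀ x y p, W x → W y → P x p → P y p → R x = R y → x = y)
    (hWV : ∀ x, W x → V (R x)) : VCu W := by
  intro B hB hBi hBW
  have hBa : ∀ x ∈ B, ∀ σ, aU σ x ∈ B := fun x hx σ =>
    (hBi x _ ((uiso_iff _ _).2 ⟨σ, rfl⟩)).1 hx
  let D : Set (US a × (Fin k → ℕ)) := {q | q.1 ∈ B ∧ P q.1.1 q.2}
  let c : US a × (Fin k → ℕ) → SS m := fun q => (R q.1.1, mk q.2 q.1.2)
  have hD : MeasurableSet D := by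
    refine MeasurableSet.inter (measurable_fst hB) ?_
    have h1 : Measurable fun q : US a × (Fin k → ℕ) => (q.1.1, q.2) :=
      (measurable_fst.comp measurable_fst).prodMk measurable_snd
    exact h1 hPm
  have hc : Continuous c := by
    refine Continuous.prodMk (hR.comp (continuous_fst.comp continuous_fst)) ?_
    exact mk_cont.comp ((continuous_snd.comp continuous_fst).prodMk continuous_snd)
  have hce : ∀ (σ : Equiv.Perm ℕ) x p, c (aU σ x, ⇑σ ∘ p) = aS σ (c (x, p)) := by
    intro σ x p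
    exact Prod.ext (hRe σ x.1) (mk_act σ p x.2)
  have hi : InjOn c D := by
    rintro ⟨x, p⟩ ⟨hx1, hx2⟩ ⟨y, q⟩ ⟨hy1, hy2⟩ h
    obtain ⟨h1, h2⟩ := mk_inj (congrArg Prod.snd h)
    have h3 : R x.1 = R y.1 := congrArg Prod.fst h
    simp only at h1 hx2 hy2
    subst h1
    have h4 := hinj x.1 y.1 p (hBW x hx1) (hBW y hy1) hx2 hy2 h3
    have h5 : x = y := Prod.ext h4 h2
    rw [h5]
  have hDi : ∀ x p, (x, p) ∈ D → ∀ σ : Equiv.Perm ℕ, (aU σ x, ⇑σ ∘ p) ∈ D := by
    rintro x p ⟨h1, h2⟩ σ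
    exact ⟨hBa x h1 σ, hPi x.1 p σ h2⟩
  have hP0 : PolishSpace (US a × (Fin k → ℕ)) := inferInstance
  have hcm : Measurable c := hc.measurable
  have key := par (Y := US a) (Z := SS m) k (act_S m) (ana_U a) D hD hDi c hcm hce hi ?_
  · have e : {x | ∃ p : Fin k → ℕ, (x, p) ∈ D} = B := by
      ext x
      constructor
      · rintro ⟨p, h1, -⟩
        exact h1
      · intro hx
        obtain ⟨p, hp⟩ := hex x.1 (hBW x hx)
        exact ⟨p, hx, hp⟩
    rw [e] at key
    exact (dicho_U B).1 key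
  · have hst : StandardBorelSpace (SS m) := inferInstance
    have hcs : MeasurableSpace.CountablySeparated (SS m) := cs_of (SS m)
    refine hV _ (hD.image_of_measurable_injOn hcm hi) ?_ ?_
    · rintro _ ⟨⟨x, p⟩, hx, rfl⟩ σ
      exact ⟨(aU σ x, ⇑σ ∘ p), hDi x p hx σ, hce σ x p⟩
    · rintro _ ⟨⟨x, p⟩, ⟨hx, -⟩, rfl⟩
      exact hWV x.1 (hBW x hx)

end Pool.Agent.W878.VC
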