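import Mathlib

set_option autoImplicit false

/-!
Gallai's forcing classes of an indecomposable graph: all edges are in one class, up to reversal.
-/

namespace Pool.Agent.W878.VC

open Relation Set

variable {A : ℕ → ℕ → Prop}

/-- A step of the forcing relation on directed edges. -/
def Stp (A : ℕ → ℕ → Prop) (p q : ℕ × ℕ) : Prop :=
  (p.1 = q.1 ∧ A q.1 q.2 ∧ ¬ A p.2 q.2) ∨ (p.2 = q.2 ∧ A q.1 q.2 ∧ ¬ A p.1 q.1)

/-- The forcing relation. -/
def Fc (A : ℕ → ℕ → Prop) : ℕ × ℕ → ℕ × ℕ → Prop := ReflTransGen (Stp A)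

/-- `X` is a module of the relation `A`. -/
def Mdl (A : ℕ → ℕ → Prop) (X : Set ℕ) : Prop :=
  ∀ u ∈ X, ∀ v ∈ X, ∀ w, w ∉ X → (A u w ↔ A v w) ∧ (A w u ↔ A w v)

/-- All modules are trivial. -/
def Prm (A : ℕ → ℕ → Prop) : Prop := ∀ X : Set ℕ, Mdl A X → X.Subsingleton ∨ X = univ

/-- The graph axioms. -/
structure Gr (A : ℕ → ℕ → Prop) : Prop where
  symm : ∀ u v, A u v → A v u
  irr : ∀ u, ¬ A u u

theorem Stp.adj {p q : ℕ × ℕ} (h : Stp A p q) : A q.1 q.2 := by
  rcases h with h | h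
  · exact h.2.1
  · exact h.2.1

theorem Fc.adj {p q : ℕ × ℕ} (h : Fc A p q) (hp : A p.1 p.2) : A q.1 q.2 := by
  induction h with
  | refl => exact hp
  | tail _ h _ => exact h.adj

theorem Stp.symm' (hA : Gr A) {p q : ℕ × ℕ} (h : Stp A p q) (hp : A p.1 p.2) : Stp A q p := by
  rcases h with ⟨h1, h2, h3⟩ | ⟨h1, h2, h3⟩
  · exact Or.inl ⟨h1.symm, hp, fun h => h3 (hA.symm _ _ h)⟩
  · exact Or.inr ⟨h1.symm, hp, fun h => h3 (hA.symm _ _ h)⟩

theorem Fc.symm' (hA : Gr A) {p q : ℕ × ℕ} (h : Fc A p q) (hp : A p.1 p.2) : Fc A q p := by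
  induction h with
  | refl => exact ReflTransGen.refl
  | tail h1 h2 ih => exact ReflTransGen.head (h2.symm' hA (Fc.adj h1 hp)) ih

theorem Stp.swap (hA : Gr A) {p q : ℕ × ℕ} (h : Stp A p q) : Stp A p.swap q.swap := by
  rcases h with ⟨h1, h2, h3⟩ | ⟨h1, h2, h3⟩
  · exact Or.inr ⟨h1, hA.symm _ _ h2, h3⟩
  · exact Or.inl ⟨h1, hA.symm _ _ h2, h3⟩

theorem Fc.swap (hA : Gr A) {p q : ℕ × ℕ} (h : Fc A p q) : Fc A p.swap q.swap := by
  induction h with
  | refl => exact ReflTransGen.refl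
  | tail _ h2 ih => exact ReflTransGen.tail ih (h2.swap hA)

/-- The triangle lemma. -/
theorem triangle (hA : Gr A) {a b c : ℕ} (hab : A a b) (hac : A a c) (hbc : A b c)
    (h1 : ¬ Fc A (b, c) (a, c)) (h2 : ¬ Fc A (b, c) (b, a)) {q : ℕ × ℕ} (h : Fc A (b, c) q) :
    A a q.1 ∧ A a q.2 ∧ Fc A (a, b) (a, q.1) ∧ Fc A (a, c) (a, q.2) := by
  induction h with
  | refl => exact ⟨hab, hac, ReflTransGen.refl, ReflTransGen.refl⟩
  | @tail p q hp hq ih =>
    obtain ⟨i1, i2, i3, i4⟩ := ih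
    obtain ⟨p1, p2⟩ := p
    obtain ⟨q1, q2⟩ := q
    have hpA : A p1 p2 := Fc.adj hp hbc
    rcases hq with ⟨e, e1, e2⟩ | ⟨e, e1, e2⟩
    · simp only at e e1 e2 i1 i2 i3 i4
      subst e
      have hq2 : A a q2 := by
        by_contra hn
        apply h2
        have s1 : Stp A (p1, q2) (p1, a) := Or.inl ⟨rfl, hA.symm _ _ i1,
          fun h => hn (hA.symm _ _ h)⟩
        have s2 : Fc A (b, c) (p1, a) :=
          (ReflTransGen.tail hp (Or.inl ⟨rfl, e1, e2⟩ : Stp A (p1, p2) (p1, q2))).tail s1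
        have s3 : Fc A (p1, a) (b, a) := by
          have := Fc.symm' hA i3 hab
          exact this.swap hA
        exact ReflTransGen.trans s2 s3
      exact ⟨i1, hq2, i3, ReflTransGen.tail i4 (Or.inl ⟨rfl, hq2, e2⟩)⟩
    · simp only at e e1 e2 i1 i2 i3 i4
      subst e
      have hq1 : A a q1 := by
        by_contra hn
        apply h1
        have s1 : Stp A (q1, p2) (a, p2) := Or.inr ⟨rfl, i2, fun h => hn (hA.symm _ _ h)⟩
        have s2 : Fc A (b, c) (a, p2) :=
          (ReflTransGen.tail hp (Or.inr ⟨rfl, e1, e2⟩ : Stp A (p1, p2) (q1, p2))).tail s1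
        exact ReflTransGen.trans s2 (Fc.symm' hA i4 hac)
      exact ⟨hq1, i2, ReflTransGen.tail i3 (Or.inl ⟨rfl, hq1, e2⟩), i4⟩

/-- Same class, up to reversal. -/
def Col (A : ℕ → ℕ → Prop) (p q : ℕ × ℕ) : Prop := Fc A p q ∨ Fc A p q.swap

theorem Col.symm' (hA : Gr A) {p q : ℕ × ℕ} (h : Col A p q) (hp : A p.1 p.2) : Col A q p := by
  rcases h with h | h
  · exact Or.inl (h.symm' hA hp)
  · right
    have := (h.symm' hA hp).swap hA
    rwa [Prod.swap_swap] at this

theorem Col.trans' (hA : Gr A) {p q r : ℕ × ℕ} (h : Col A p q) (h' : Col A q r) : Col A p r := by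
  rcases h with h | h <;> rcases h' with h' | h'
  · exact Or.inl (ReflTransGen.trans h h')
  · exact Or.inr (ReflTransGen.trans h h')
  · exact Or.inr (ReflTransGen.trans h (h'.swap hA))
  · left
    have := h'.swap hA
    rw [Prod.swap_swap] at this
    exact ReflTransGen.trans h this

/-- The vertices of a class form a module. -/
theorem span_mdl (hA : Gr A) (p : ℕ × ℕ) (hp : A p.1 p.2) :
    Mdl A {v | ∃ q, Fc A p q ∧ (q.1 = v ∨ q.2 = v)} := by
  have key : ∀ w, (¬ ∃ q, Fc A p q ∧ (q.1 = w ∨ q.2 = w)) → ∀ q, Fc A p q →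
      (A w q.1 ↔ A w p.1) ∧ (A w q.2 ↔ A w p.1) := by
    intro w hw q hq
    have k1 : ∀ q, Fc A p q → (A w q.1 ↔ A w q.2) := by
      intro q hq
      constructor
      · intro h
        by_contra hn
        apply hw
        refine ⟨(q.1, w), ReflTransGen.tail hq (Or.inl ⟨rfl, hA.symm _ _ h, ?_⟩), Or.inr rfl⟩
        exact fun h' => hn (hA.symm _ _ h')
      · intro h
        by_contra hn
        apply hw
        refine ⟨(w, q.2), ReflTransGen.tail hq (Or.inr ⟨rfl, h, ?_⟩), Or.inl rfl⟩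
        exact fun h' => hn (hA.symm _ _ h')
    induction hq with
    | refl => exact ⟨Iff.rfl, (k1 p ReflTransGen.refl).symm⟩
    | @tail r s hr hs ih =>
      have k2 := k1 s (ReflTransGen.tail hr hs)
      rcases hs with ⟨e, -, -⟩ | ⟨e, -, -⟩
      · rw [← k2, ← e]
        exact ⟨ih.1, ih.1⟩
      · rw [k2, ← e]
        exact ⟨ih.2, ih.2⟩
  rintro u ⟨q, hq, hqu⟩ v ⟨r, hr, hrv⟩ w hw
  have h1 : A w u ↔ A w p.1 := by
    rcases hqu with rfl | rfl
    · exact (key w hw q hq).1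
    · exact (key w hw q hq).2
  have h2 : A w v ↔ A w p.1 := by
    rcases hrv with rfl | rfl
    · exact (key w hw r hr).1
    · exact (key w hw r hr).2
  have h3 : A w u ↔ A w v := h1.trans h2.symm
  refine ⟨⟨fun h => hA.symm _ _ (h3.1 (hA.symm _ _ h)), fun h => hA.symm _ _ (h3.2 (hA.symm _ _ h))⟩,
    h3⟩

theorem span_univ (hA : Gr A) (hP : Prm A) (p : ℕ × ℕ) (hp : A p.1 p.2) (v : ℕ) :
    ∃ q, Fc A p q ∧ (q.1 = v ∨ q.2 = v) := by
  rcases hP _ (span_mdl hA p hp) with h | h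
  · exfalso
    have : p.1 = p.2 := h ⟨p, ReflTransGen.refl, Or.inl rfl⟩ ⟨p, ReflTransGen.refl, Or.inr rfl⟩
    rw [this] at hp
    exact hA.irr _ hp
  · have : v ∈ (univ : Set ℕ) := mem_univ v
    rw [← h] at this
    exact this

theorem col_triangle (hA : Gr A) (hP : Prm A) {a b c : ℕ} (hab : A a b) (hac : A a c)
    (hbc : A b c) : Col A (b, c) (a, c) ∨ Col A (b, c) (a, b) := by
  by_cases h1 : Fc A (b, c) (a, c)
  · exact Or.inl (Or.inl h1)
  by_cases h2 : Fc A (b, c) (b, a)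
  · exact Or.inr (Or.inr h2)
  exfalso
  obtain ⟨q, hq, hqa⟩ := span_univ hA hP (b, c) hbc a
  obtain ⟨i1, i2, -, -⟩ := triangle hA hab hac hbc h1 h2 hq
  rcases hqa with h | h
  · rw [h] at i1
    exact hA.irr _ i1
  · rw [h] at i2
    exact hA.irr _ i2

/-- Edges at one vertex. -/
theorem col_vertex (hA : Gr A) (hP : Prm A) {v x y : ℕ} (hx : A v x) (hy : A v y) :
    Col A (v, x) (v, y) := by
  by_cases hxy : A x y
  · have e1 : A x v := hA.symm _ _ hx
    have e2 : A y v := hA.symm _ _ hy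
    have e3 : A y x := hA.symm _ _ hxy
    -- the edge `x y` and the vertex `v`
    rcases col_triangle hA hP hx hy hxy with h | h
    · -- `x y` like `v y`; now the edge `v x` and the vertex `y`
      rcases col_triangle hA hP e2 e3 hx with h' | h'
      · -- `v x` like `y x`
        have h2 : Col A (v, x) (x, y) := by
          rcases h' with h' | h'
          · exact Or.inr h'
          · exact Or.inl h'
        exact h2.trans' hA h
      · rcases h' with h' | h'
        · exact Or.inr h'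
        · exact Or.inl h'
    · -- `x y` like `v x`; now the edge `v y` and the vertex `x`
      rcases col_triangle hA hP e1 hxy hy with h' | h'
      · -- `v y` like `x y`
        exact (h'.trans' hA h).symm' hA hy
      · -- `v y` like `x v`
        have h2 : Col A (v, y) (v, x) := by
          rcases h' with h' | h'
          · exact Or.inr h'
          · exact Or.inl h'
        exact h2.symm' hA hy
  · exact Or.inl (ReflTransGen.single (Or.inl ⟨rfl, hy, hxy⟩))

/-- Gallai's theorem. -/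
theorem gallai (hA : Gr A) (hP : Prm A) {p q : ℕ × ℕ} (hp : A p.1 p.2) (hq : A q.1 q.2) :
    Fc A p q ∨ Fc A p q.swap := by
  obtain ⟨r, hr, hrq⟩ := span_univ hA hP p hp q.1
  have hrA : A r.1 r.2 := Fc.adj hr hp
  rcases hrq with h | h
  · have h1 : Col A (q.1, r.2) (q.1, q.2) := col_vertex hA hP (by rw [← h]; exact hrA) hq
    have e : r = (q.1, r.2) := by rw [← h]
    rw [← e] at h1
    exact Col.trans' hA (Or.inl hr) h1
  · have h1 : Col A (q.1, r.1) (q.1, q.2) :=
      col_vertex hA hP (by rw [← h]; exact hA.symm _ _ hrA) hq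
    have e : r.swap = (q.1, r.1) := by rw [← h]; rfl
    rw [← e] at h1
    have h2 : Col A p r.swap := Or.inr (by rw [Prod.swap_swap]; exact hr)
    exact h2.trans' hA h1

/-- An orientation compatible with the forcing is determined by one edge. -/
theorem orient (hA : Gr A) (hP : Prm A) {E : ℕ → ℕ → Prop} (hE : ∀ u v, E u v → A u v)
    (has : ∀ u v, E u v → ¬ E v u) (hf : ∀ p q, E p.1 p.2 → Stp A p q → E q.1 q.2)
    {a b : ℕ} (hab : E a b) (u v : ℕ) : E u v ↔ A u v ∧ Fc A (a, b) (u, v) := by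
  have h0 : ∀ p q, Fc A p q → E p.1 p.2 → E q.1 q.2 := by
    intro p q h hp
    induction h with
    | refl => exact hp
    | tail _ h2 ih => exact hf _ _ ih h2
  constructor
  · intro h
    refine ⟨hE _ _ h, ?_⟩
    rcases gallai hA hP (p := (a, b)) (q := (u, v)) (hE _ _ hab) (hE _ _ h) with h1 | h1
    · exact h1
    · exact absurd (h0 _ _ h1 hab) (has _ _ h)
  · rintro ⟨-, h⟩
    exact h0 _ _ h hab

end Pool.Agent.W878.VC
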