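import Pool.Agent.W878.VC.Gal

set_option autoImplicit false

/-!
Indecomposable partial orders have indecomposable comparability graphs; indecomposable pairs of
linear orders have indecomposable inversion graphs.
-/

namespace Pool.Agent.W878.VC

open Relation Set

/-- Strict partial orders. -/
structure SPO (lt : ℕ → ℕ → Prop) : Prop where
  irr : ∀ u, ¬ lt u u
  trans : ∀ u v w, lt u v → lt v w → lt u w

theorem SPO.asymm {lt : ℕ → ℕ → Prop} (h : SPO lt) {u v : ℕ} (h1 : lt u v) (h2 : lt v u) :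
    False := h.irr u (h.trans _ _ _ h1 h2)

/-- Comparability. -/
def Cmp (lt : ℕ → ℕ → Prop) (u v : ℕ) : Prop := lt u v ∨ lt v u

theorem gr_cmp {lt : ℕ → ℕ → Prop} (h : SPO lt) : Gr (Cmp lt) :=
  ⟨fun _ _ h => h.symm, fun u hu => h.irr u (hu.elim id id)⟩

/-- A connected set is a module if the steps are. -/
theorem conn_mdl {lt r : ℕ → ℕ → Prop} {u : ℕ}
    (h : ∀ s t w, ReflTransGen r u s → r s t → ¬ ReflTransGen r u w →
      (lt s w ↔ lt t w) ∧ (lt w s ↔ lt w t)) : Mdl lt {w | ReflTransGen r u w} := by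
  have key : ∀ w, ¬ ReflTransGen r u w → ∀ s, ReflTransGen r u s →
      (lt u w ↔ lt s w) ∧ (lt w u ↔ lt w s) := by
    intro w hw s hs
    induction hs with
    | refl => exact ⟨Iff.rfl, Iff.rfl⟩
    | @tail s t h1 h2 ih =>
      obtain ⟨a, b⟩ := h s t w h1 h2 hw
      exact ⟨ih.1.trans a, ih.2.trans b⟩
  intro s hs t ht w hw
  obtain ⟨a, b⟩ := key w hw s hs
  obtain ⟨c, d⟩ := key w hw t ht
  exact ⟨a.symm.trans c, b.symm.trans d⟩

theorem not_triv {X : Set ℕ} (h : ¬ (X.Subsingleton ∨ X = univ)) :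
    (∃ x ∈ X, ∃ y ∈ X, x ≠ y) ∧ ∃ z, z ∉ X := by
  rw [not_or] at h
  constructor
  · by_contra hc
    apply h.1
    intro x hx y hy
    by_contra hxy
    exact hc ⟨x, hx, y, hy, hxy⟩
  · by_contra hc
    apply h.2
    ext z
    simp only [mem_univ, iff_true]
    by_contra hz
    exact hc ⟨z, hz⟩

/-- Kelly's lemma. -/
theorem kelly {lt : ℕ → ℕ → Prop} (hO : SPO lt) (hP : Prm lt) : Prm (Cmp lt) := by
  classical
  intro X hX
  by_contra hnt
  obtain ⟨⟨x, hx, y, hy, hxy⟩, z, hz⟩ := not_triv hnt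
  by_cases h1 : ∃ u ∈ X, ∃ v ∈ X, u ≠ v ∧ ¬ Cmp lt u v
  · obtain ⟨u, hu, v, hv, huv, hcv⟩ := h1
    let r : ℕ → ℕ → Prop := fun s t => s ∈ X ∧ t ∈ X ∧ ¬ Cmp lt s t
    have hsub : ∀ s, ReflTransGen r u s → s ∈ X := by
      intro s hs
      induction hs with
      | refl => exact hu
      | tail _ h _ => exact h.2.1
    have hm : Mdl lt {w | ReflTransGen r u w} := by
      apply conn_mdl
      rintro s t w hs ⟨hsX, htX, hst⟩ hw
      have ht : ReflTransGen r u t := ReflTransGen.tail hs ⟨hsX, htX, hst⟩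
      -- comparability to `s` and `t`
      have hc : Cmp lt w s ↔ Cmp lt w t := by
        by_cases hwX : w ∈ X
        · have a : Cmp lt w s := by
            by_contra hn
            exact hw (ReflTransGen.tail hs ⟨hsX, hwX, fun h => hn h.symm⟩)
          have b : Cmp lt w t := by
            by_contra hn
            exact hw (ReflTransGen.tail ht ⟨htX, hwX, fun h => hn h.symm⟩)
          exact ⟨fun _ => b, fun _ => a⟩
        · exact (hX s hsX t htX w hwX).2
      have e1 : ∀ s t, ¬ Cmp lt s t → (Cmp lt w s → Cmp lt w t) → lt s w → lt t w := by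
        intro s t hst hc h
        rcases hc (Or.inr h) with h' | h'
        · exact absurd (Or.inl (hO.trans _ _ _ h h')) hst
        · exact h'
      have e2 : ∀ s t, ¬ Cmp lt s t → (Cmp lt w s → Cmp lt w t) → lt w s → lt w t := by
        intro s t hst hc h
        rcases hc (Or.inl h) with h' | h'
        · exact h'
        · exact absurd (Or.inr (hO.trans _ _ _ h' h)) hst
      have hts : ¬ Cmp lt t s := fun h => hst h.symm
      exact ⟨⟨e1 s t hst hc.1, e1 t s hts hc.2⟩, ⟨e2 s t hst hc.1, e2 t s hts hc.2⟩⟩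
    rcases hP _ hm with h | h
    · exact huv (h ReflTransGen.refl (ReflTransGen.single ⟨hu, hv, hcv⟩))
    · apply hz
      apply hsub
      have : z ∈ (univ : Set ℕ) := mem_univ z
      rw [← h] at this
      exact this
  · have hch : ∀ u ∈ X, ∀ v ∈ X, u ≠ v → Cmp lt u v := by
      intro u hu v hv huv
      by_contra hn
      exact h1 ⟨u, hu, v, hv, huv, hn⟩
    let W : Set ℕ := {w | w ∈ X ∨ ∃ x₁ ∈ X, ∃ x₂ ∈ X, lt x₁ w ∧ lt w x₂}
    have hm : Mdl lt W := by
      have hb : ∀ w, w ∉ W → ∀ u ∈ W, ∀ x₀ ∈ X, (lt x₀ w → lt u w) ∧ (lt w x₀ → lt w u) ∧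
          (lt u w → lt x₀ w) ∧ (lt w u → lt w x₀) := by
        intro w hw u hu x₀ hx₀
        have hwX : w ∉ X := fun h => hw (Or.inl h)
        -- `w` is related in the same way to all points of `X`
        have k1 : ∀ p ∈ X, ∀ q ∈ X, lt p w → lt q w := by
          intro p hp q hq h
          rcases ((hX p hp q hq w hwX).1.1 (Or.inl h)) with h' | h'
          · exact h'
          · exact absurd (Or.inr ⟨p, hp, q, hq, h, h'⟩) hw
        have k2 : ∀ p ∈ X, ∀ q ∈ X, lt w p → lt w q := by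
          intro p hp q hq h
          rcases ((hX p hp q hq w hwX).1.1 (Or.inr h)) with h' | h'
          · exact absurd (Or.inr ⟨q, hq, p, hp, h', h⟩) hw
          · exact h'
        rcases hu with hu | ⟨x₁, hx₁, x₂, hx₂, h₁, h₂⟩
        · exact ⟨k1 _ hx₀ _ hu, k2 _ hx₀ _ hu, k1 _ hu _ hx₀, k2 _ hu _ hx₀⟩
        · refine ⟨fun h => hO.trans _ _ _ h₂ (k1 _ hx₀ _ hx₂ h),
            fun h => hO.trans _ _ _ (k2 _ hx₀ _ hx₁ h) h₁,
            fun h => k1 _ hx₁ _ hx₀ (hO.trans _ _ _ h₁ h),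
            fun h => k2 _ hx₂ _ hx₀ (hO.trans _ _ _ h h₂)⟩
      intro u hu v hv w hw
      obtain ⟨a1, a2, a3, a4⟩ := hb w hw u hu x hx
      obtain ⟨b1, b2, b3, b4⟩ := hb w hw v hv x hx
      exact ⟨⟨fun h => b1 (a3 h), fun h => a1 (b3 h)⟩, ⟨fun h => b2 (a4 h), fun h => a2 (b4 h)⟩⟩
    rcases hP _ hm with h | h
    · exact hxy (h (Or.inl hx) (Or.inl hy))
    · have hall : ∀ w, w ∈ W := by
        intro w
        rw [h]
        exact mem_univ w
      rcases hall z with hz' | ⟨x₁, hx₁, x₂, hx₂, h₁, h₂⟩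
      · exact hz hz'
      · have hcx : ∀ v, v ≠ x₁ → Cmp lt v x₁ := by
          intro v hv
          by_cases hvX : v ∈ X
          · exact hch v hvX x₁ hx₁ hv
          · rcases hall v with hv' | ⟨y₁, hy₁, y₂, hy₂, h₃, h₄⟩
            · exact absurd hv' hvX
            · exact (hX y₁ hy₁ x₁ hx₁ v hvX).2.1 (Or.inr h₃)
        have hm2 : Mdl lt {v | lt x₁ v} := by
          have key : ∀ w, ¬ lt x₁ w → ∀ u, lt x₁ u → (lt w u ∧ ¬ lt u w) := by
            intro w hw u hu
            have hwu : lt w u := by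
              by_cases hwx : w = x₁
              · rw [hwx]; exact hu
              · rcases hcx w hwx with h' | h'
                · exact hO.trans _ _ _ h' hu
                · exact absurd h' hw
            exact ⟨hwu, fun h' => hO.asymm hwu h'⟩
          intro u hu v hv w hw
          obtain ⟨a1, a2⟩ := key w hw u hu
          obtain ⟨b1, b2⟩ := key w hw v hv
          exact ⟨⟨fun h => absurd h a2, fun h => absurd h b2⟩, ⟨fun _ => b1, fun _ => a1⟩⟩
        rcases hP _ hm2 with h' | h'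
        · have e : x₂ = z := h' (hO.trans _ _ _ h₁ h₂) h₁
          exact hz (e ▸ hx₂)
        · have : x₁ ∈ ({v | lt x₁ v} : Set ℕ) := by rw [h']; exact mem_univ _
          exact hO.irr _ this

/-- Strict linear orders. -/
structure SLO (lt : ℕ → ℕ → Prop) : Prop extends SPO lt where
  total : ∀ u v, u ≠ v → lt u v ∨ lt v u

/-- Kelly's lemma for pairs of linear orders. -/
theorem kelly2 {l m : ℕ → ℕ → Prop} (hl : SLO l) (hm : SLO m)
    (hP : ∀ X : Set ℕ, Mdl l X → Mdl m X → X.Subsingleton ∨ X = univ) :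
    Prm (fun u v => l u v ∧ m u v) := by
  classical
  set P : ℕ → ℕ → Prop := fun u v => l u v ∧ m u v with hPd
  set Q : ℕ → ℕ → Prop := fun u v => l u v ∧ m v u with hQd
  have hPO : SPO P := ⟨fun u h => hl.irr u h.1,
    fun u v w h1 h2 => ⟨hl.trans _ _ _ h1.1 h2.1, hm.trans _ _ _ h1.2 h2.2⟩⟩
  have hQO : SPO Q := ⟨fun u h => hl.irr u h.1,
    fun u v w h1 h2 => ⟨hl.trans _ _ _ h1.1 h2.1, hm.trans _ _ _ h2.2 h1.2⟩⟩
  have htot : ∀ u v, u ≠ v → Cmp P u v ∨ Cmp Q u v := by
    intro u v huv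
    rcases hl.total u v huv with h1 | h1 <;> rcases hm.total u v huv with h2 | h2
    · exact Or.inl (Or.inl ⟨h1, h2⟩)
    · exact Or.inr (Or.inl ⟨h1, h2⟩)
    · exact Or.inr (Or.inr ⟨h1, h2⟩)
    · exact Or.inl (Or.inr ⟨h1, h2⟩)
  have hdis : ∀ u v, Cmp P u v → Cmp Q u v → False := by
    rintro u v (h1 | h1) (h2 | h2)
    · exact hm.asymm h1.2 h2.2
    · exact hl.asymm h1.1 h2.1
    · exact hl.asymm h1.1 h2.1
    · exact hm.asymm h1.2 h2.2
  have hlPQ : ∀ u v, l u v ↔ (P u v ∨ Q u v) := by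
    intro u v
    constructor
    · intro h
      have huv : u ≠ v := by rintro rfl; exact hl.irr _ h
      rcases hm.total u v huv with h2 | h2
      · exact Or.inl ⟨h, h2⟩
      · exact Or.inr ⟨h, h2⟩
    · rintro (h | h)
      · exact h.1
      · exact h.1
  have hmPQ : ∀ u v, m u v ↔ (P u v ∨ Q v u) := by
    intro u v
    constructor
    · intro h
      have huv : u ≠ v := by rintro rfl; exact hm.irr _ h
      rcases hl.total u v huv with h2 | h2
      · exact Or.inl ⟨h2, h⟩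
      · exact Or.inr ⟨h2, h⟩
    · rintro (h | h)
      · exact h.2
      · exact h.2
  -- modules for `P` and `Q` are modules of the pair
  have hPQ : ∀ X : Set ℕ, Mdl P X → Mdl Q X → X.Subsingleton ∨ X = univ := by
    intro X h1 h2
    apply hP X
    · intro u hu v hv w hw
      obtain ⟨a1, a2⟩ := h1 u hu v hv w hw
      obtain ⟨b1, b2⟩ := h2 u hu v hv w hw
      rw [hlPQ, hlPQ, hlPQ, hlPQ]
      exact ⟨or_congr a1 b1, or_congr a2 b2⟩
    · intro u hu v hv w hw
      obtain ⟨a1, a2⟩ := h1 u hu v hv w hw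
      obtain ⟨b1, b2⟩ := h2 u hu v hv w hw
      rw [hmPQ, hmPQ, hmPQ, hmPQ]
      exact ⟨or_congr a1 b2, or_congr a2 b1⟩
  intro X hX
  by_contra hnt
  obtain ⟨⟨x, hx, y, hy, hxy⟩, z, hz⟩ := not_triv hnt
  have hXc : ∀ u ∈ X, ∀ v ∈ X, ∀ w, w ∉ X → (Cmp P w u ↔ Cmp P w v) := by
    intro u hu v hv w hw
    obtain ⟨a, b⟩ := hX u hu v hv w hw
    exact or_congr b a
  have hXq : ∀ u ∈ X, ∀ v ∈ X, ∀ w, w ∉ X → (Cmp Q w u ↔ Cmp Q w v) := by
    intro u hu v hv w hw
    have hwu : w ≠ u := by rintro rfl; exact hw hu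
    have hwv : w ≠ v := by rintro rfl; exact hw hv
    have h1 := hXc u hu v hv w hw
    constructor
    · intro h
      rcases htot w v hwv with h2 | h2
      · exact absurd (h1.2 h2) (fun h3 => hdis _ _ h3 h)
      · exact h2
    · intro h
      rcases htot w u hwu with h2 | h2
      · exact absurd (h1.1 h2) (fun h3 => hdis _ _ h3 h)
      · exact h2
  by_cases h1 : ∃ u ∈ X, ∃ v ∈ X, u ≠ v ∧ Cmp P u v
  · obtain ⟨u, hu, v, hv, huv, hcv⟩ := h1
    let r : ℕ → ℕ → Prop := fun s t => s ∈ X ∧ t ∈ X ∧ Cmp P s t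
    have hsub : ∀ s, ReflTransGen r u s → s ∈ X := by
      intro s hs
      induction hs with
      | refl => exact hu
      | tail _ h _ => exact h.2.1
    have hbase : ∀ s t w, ReflTransGen r u s → r s t → ¬ ReflTransGen r u w →
        ((P s w ↔ P t w) ∧ (P w s ↔ P w t)) ∧ ((Q s w ↔ Q t w) ∧ (Q w s ↔ Q w t)) := by
      rintro s t w hs ⟨hsX, htX, hst⟩ hw
      have ht : ReflTransGen r u t := ReflTransGen.tail hs ⟨hsX, htX, hst⟩
      have hws : w ≠ s := by rintro rfl; exact hw hs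
      have hwt : w ≠ t := by rintro rfl; exact hw ht
      have hP1 : (P s w ↔ P t w) ∧ (P w s ↔ P w t) := by
        by_cases hwX : w ∈ X
        · have a : ¬ Cmp P w s := fun h => hw (ReflTransGen.tail hs ⟨hsX, hwX, h.symm⟩)
          have b : ¬ Cmp P w t := fun h => hw (ReflTransGen.tail ht ⟨htX, hwX, h.symm⟩)
          exact ⟨⟨fun h => absurd (Or.inr h) a, fun h => absurd (Or.inr h) b⟩,
            ⟨fun h => absurd (Or.inl h) a, fun h => absurd (Or.inl h) b⟩⟩
        · exact hX s hsX t htX w hwX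
      refine ⟨hP1, ?_⟩
      have hc : Cmp Q w s ↔ Cmp Q w t := by
        by_cases hwX : w ∈ X
        · have a : ¬ Cmp P w s := fun h => hw (ReflTransGen.tail hs ⟨hsX, hwX, h.symm⟩)
          have b : ¬ Cmp P w t := fun h => hw (ReflTransGen.tail ht ⟨htX, hwX, h.symm⟩)
          exact ⟨fun _ => (htot w t hwt).resolve_left b, fun _ => (htot w s hws).resolve_left a⟩
        · exact hXq s hsX t htX w hwX
      have hnq : ¬ Cmp Q s t := fun h => hdis _ _ hst h
      have hnq' : ¬ Cmp Q t s := fun h => hnq h.symm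
      have e1 : ∀ s t, ¬ Cmp Q s t → (Cmp Q w s → Cmp Q w t) → Q s w → Q t w := by
        intro s t hst hc h
        rcases hc (Or.inr h) with h' | h'
        · exact absurd (Or.inl (hQO.trans _ _ _ h h')) hst
        · exact h'
      have e2 : ∀ s t, ¬ Cmp Q s t → (Cmp Q w s → Cmp Q w t) → Q w s → Q w t := by
        intro s t hst hc h
        rcases hc (Or.inl h) with h' | h'
        · exact h'
        · exact absurd (Or.inr (hQO.trans _ _ _ h' h)) hst
      exact ⟨⟨e1 s t hnq hc.1, e1 t s hnq' hc.2⟩, ⟨e2 s t hnq hc.1, e2 t s hnq' hc.2⟩⟩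
    have hm1 : Mdl P {w | ReflTransGen r u w} :=
      conn_mdl fun s t w h1 h2 h3 => (hbase s t w h1 h2 h3).1
    have hm2 : Mdl Q {w | ReflTransGen r u w} :=
      conn_mdl fun s t w h1 h2 h3 => (hbase s t w h1 h2 h3).2
    rcases hPQ _ hm1 hm2 with h | h
    · exact huv (h ReflTransGen.refl (ReflTransGen.single ⟨hu, hv, hcv⟩))
    · apply hz
      apply hsub
      have : z ∈ (univ : Set ℕ) := mem_univ z
      rw [← h] at this
      exact this
  · have hch : ∀ u ∈ X, ∀ v ∈ X, u ≠ v → Cmp Q u v := by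
      intro u hu v hv huv
      rcases htot u v huv with h | h
      · exact absurd ⟨u, hu, v, hv, huv, h⟩ h1
      · exact h
    let W : Set ℕ := {w | w ∈ X ∨ ∃ x₁ ∈ X, ∃ x₂ ∈ X, Q x₁ w ∧ Q w x₂}
    -- relation of `w` outside `W` to the points of `W`
    have hbQ : ∀ w, w ∉ W → ∀ u ∈ W, ∀ x₀ ∈ X, (Q x₀ w → Q u w) ∧ (Q w x₀ → Q w u) ∧
        (Q u w → Q x₀ w) ∧ (Q w u → Q w x₀) := by
      intro w hw u hu x₀ hx₀
      have hwX : w ∉ X := fun h => hw (Or.inl h)
      have k1 : ∀ p ∈ X, ∀ q ∈ X, Q p w → Q q w := by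
        intro p hp q hq h
        rcases ((hXq p hp q hq w hwX).1 (Or.inr h)) with h' | h'
        · exact absurd (Or.inr ⟨p, hp, q, hq, h, h'⟩) hw
        · exact h'
      have k2 : ∀ p ∈ X, ∀ q ∈ X, Q w p → Q w q := by
        intro p hp q hq h
        rcases ((hXq p hp q hq w hwX).1 (Or.inl h)) with h' | h'
        · exact h'
        · exact absurd (Or.inr ⟨q, hq, p, hp, h', h⟩) hw
      rcases hu with hu | ⟨x₁, hx₁, x₂, hx₂, h₁, h₂⟩
      · exact ⟨k1 _ hx₀ _ hu, k2 _ hx₀ _ hu, k1 _ hu _ hx₀, k2 _ hu _ hx₀⟩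
      · refine ⟨fun h => hQO.trans _ _ _ h₂ (k1 _ hx₀ _ hx₂ h),
          fun h => hQO.trans _ _ _ (k2 _ hx₀ _ hx₁ h) h₁,
          fun h => k1 _ hx₁ _ hx₀ (hQO.trans _ _ _ h₁ h),
          fun h => k2 _ hx₂ _ hx₀ (hQO.trans _ _ _ h h₂)⟩
    have hbP : ∀ w, w ∉ W → ∀ u ∈ W, ∀ x₀ ∈ X, (P x₀ w → P u w) ∧ (P w x₀ → P w u) := by
      intro w hw u hu x₀ hx₀
      have hwX : w ∉ X := fun h => hw (Or.inl h)
      have k1 : ∀ p ∈ X, ∀ q ∈ X, P p w → P q w := fun p hp q hq h => (hX p hp q hq w hwX).1.1 h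
      have k2 : ∀ p ∈ X, ∀ q ∈ X, P w p → P w q := fun p hp q hq h => (hX p hp q hq w hwX).2.1 h
      rcases hu with hu | ⟨x₁, hx₁, x₂, hx₂, h₁, h₂⟩
      · exact ⟨k1 _ hx₀ _ hu, k2 _ hx₀ _ hu⟩
      · constructor
        · intro h
          exact ⟨hl.trans _ _ _ h₂.1 (k1 _ hx₀ _ hx₂ h).1, hm.trans _ _ _ h₁.2 (k1 _ hx₀ _ hx₁ h).2⟩
        · intro h
          exact ⟨hl.trans _ _ _ (k2 _ hx₀ _ hx₁ h).1 h₁.1, hm.trans _ _ _ (k2 _ hx₀ _ hx₂ h).2 h₂.2⟩
    have hmQ : Mdl Q W := by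
      intro u hu v hv w hw
      obtain ⟨a1, a2, a3, a4⟩ := hbQ w hw u hu x hx
      obtain ⟨b1, b2, b3, b4⟩ := hbQ w hw v hv x hx
      exact ⟨⟨fun h => b1 (a3 h), fun h => a1 (b3 h)⟩, ⟨fun h => b2 (a4 h), fun h => a2 (b4 h)⟩⟩
    have hmP : Mdl P W := by
      have hxc : ∀ w, w ∉ W → ∀ u ∈ W, (P u w ↔ P x w) ∧ (P w u ↔ P w x) := by
        intro w hw u hu
        have hwX : w ∉ X := fun h => hw (Or.inl h)
        have hwx : w ≠ x := by rintro rfl; exact hwX hx
        obtain ⟨a1, a2⟩ := hbP w hw u hu x hx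
        obtain ⟨b1, b2, b3, b4⟩ := hbQ w hw u hu x hx
        rcases htot w x hwx with (h | h) | (h | h)
        · have h' := a2 h
          exact ⟨⟨fun h2 => absurd h2 (fun h3 => hPO.asymm h' h3),
            fun h2 => absurd h2 (fun h3 => hPO.asymm h h3)⟩, ⟨fun _ => h, fun _ => h'⟩⟩
        · have h' := a1 h
          exact ⟨⟨fun _ => h, fun _ => h'⟩, ⟨fun h2 => absurd h2 (fun h3 => hPO.asymm h' h3),
            fun h2 => absurd h2 (fun h3 => hPO.asymm h h3)⟩⟩
        · have h' := b2 h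
          have n1 : ¬ P u w := fun h2 => hdis _ _ (Or.inl h2) (Or.inr h')
          have n2 : ¬ P w u := fun h2 => hdis _ _ (Or.inr h2) (Or.inr h')
          have n3 : ¬ P x w := fun h2 => hdis _ _ (Or.inl h2) (Or.inr h)
          have n4 : ¬ P w x := fun h2 => hdis _ _ (Or.inr h2) (Or.inr h)
          exact ⟨⟨fun h => absurd h n1, fun h => absurd h n3⟩,
            ⟨fun h => absurd h n2, fun h => absurd h n4⟩⟩
        · have h' := b1 h
          have n1 : ¬ P u w := fun h2 => hdis _ _ (Or.inl h2) (Or.inl h')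
          have n2 : ¬ P w u := fun h2 => hdis _ _ (Or.inr h2) (Or.inl h')
          have n3 : ¬ P x w := fun h2 => hdis _ _ (Or.inl h2) (Or.inl h)
          have n4 : ¬ P w x := fun h2 => hdis _ _ (Or.inr h2) (Or.inl h)
          exact ⟨⟨fun h => absurd h n1, fun h => absurd h n3⟩,
            ⟨fun h => absurd h n2, fun h => absurd h n4⟩⟩
      intro u hu v hv w hw
      obtain ⟨a1, a2⟩ := hxc w hw u hu
      obtain ⟨b1, b2⟩ := hxc w hw v hv
      exact ⟨a1.trans b1.symm, a2.trans b2.symm⟩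
    rcases hPQ _ hmP hmQ with h | h
    · exact hxy (h (Or.inl hx) (Or.inl hy))
    · have hall : ∀ w, w ∈ W := by
        intro w
        rw [h]
        exact mem_univ w
      rcases hall z with hz' | ⟨x₁, hx₁, x₂, hx₂, h₁, h₂⟩
      · exact hz hz'
      · have hcx : ∀ v, v ≠ x₁ → Cmp Q v x₁ := by
          intro v hv
          by_cases hvX : v ∈ X
          · exact hch v hvX x₁ hx₁ hv
          · rcases hall v with hv' | ⟨y₁, hy₁, y₂, hy₂, h₃, h₄⟩
            · exact absurd hv' hvX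
            · exact (hXq y₁ hy₁ x₁ hx₁ v hvX).1 (Or.inr h₃)
        have key : ∀ w, ¬ Q x₁ w → ∀ u, Q x₁ u → Q w u := by
          intro w hw u hu
          by_cases hwx : w = x₁
          · rw [hwx]; exact hu
          · rcases hcx w hwx with h' | h'
            · exact hQO.trans _ _ _ h' hu
            · exact absurd h' hw
        have hm2 : Mdl Q {v | Q x₁ v} := by
          intro u hu v hv w hw
          have a1 := key w hw u hu
          have b1 := key w hw v hv
          exact ⟨⟨fun h => (hQO.asymm a1 h).elim, fun h => (hQO.asymm b1 h).elim⟩,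
            ⟨fun _ => b1, fun _ => a1⟩⟩
        have hm3 : Mdl P {v | Q x₁ v} := by
          intro u hu v hv w hw
          have a1 := key w hw u hu
          have b1 := key w hw v hv
          have n1 : ¬ P u w := fun h2 => hdis _ _ (Or.inl h2) (Or.inr a1)
          have n2 : ¬ P w u := fun h2 => hdis _ _ (Or.inr h2) (Or.inr a1)
          have n3 : ¬ P v w := fun h2 => hdis _ _ (Or.inl h2) (Or.inr b1)
          have n4 : ¬ P w v := fun h2 => hdis _ _ (Or.inr h2) (Or.inr b1)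
          exact ⟨⟨fun h => absurd h n1, fun h => absurd h n3⟩,
            ⟨fun h => absurd h n2, fun h => absurd h n4⟩⟩
        rcases hPQ _ hm3 hm2 with h' | h'
        · have e : x₂ = z := h' (hQO.trans _ _ _ h₁ h₂) h₁
          exact hz (e ▸ hx₂)
        · have : x₁ ∈ ({v | Q x₁ v} : Set ℕ) := by rw [h']; exact mem_univ _
          exact hQO.irr _ this

end Pool.Agent.W878.VC
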