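import Pool.Agent.W878.VC.Pos
import Pool.Agent.W875.TS.MD5

set_option autoImplicit false

/-!
From prime structures to all structures.
-/

namespace Pool.Agent.W878.VC

open Set MeasureTheory Relation
open Pool.Agent.H533R2.VO (RS)
open Pool.Agent.H533R2.VS (VCu US UIso UDich Coan Inv Canon)
open Pool.Agent.H899R2.VP (gaifman HasCliqueSubdivision)
open Pool.Agent.W875.TS (qt MQ ts_mod)

theorem eta2 (v : Fin 2 → ℕ) : v = ![v 0, v 1] := by
  funext j
  fin_cases j <;> rfl

theorem mdl875 {x : RS a2} {X : Set ℕ} (h : ∀ i, Mdl (rl x i) X) :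
    Pool.Agent.W875.TS.Mdl x X := by
  intro i t k l b hk hb hl
  have hkl : k ≠ l := by
    rintro rfl
    exact hl hk
  rw [Bool.eq_iff_iff]
  have e1 : t = ![t 0, t 1] := eta2 t
  match k, l, hkl with
  | 0, 1, _ =>
    have e2 : Function.update t (0 : Fin 2) b = ![b, t 1] := by
      rw [eta2 (Function.update t (0 : Fin 2) b)]
      simp
    have h1 := (h i b hb (t 0) hk (t 1) hl).1
    unfold rl at h1
    rw [← e1] at h1
    show x i (Function.update t (0 : Fin 2) b) = true ↔ _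
    rw [e2]
    exact h1
  | 1, 0, _ =>
    have e2 : Function.update t (1 : Fin 2) b = ![t 0, b] := by
      rw [eta2 (Function.update t (1 : Fin 2) b)]
      simp
    have h1 := (h i b hb (t 1) hk (t 0) hl).2
    unfold rl at h1
    rw [← e1] at h1
    show x i (Function.update t (1 : Fin 2) b) = true ↔ _
    rw [e2]
    exact h1
  | 0, 0, hh => exact absurd rfl hh
  | 1, 1, hh => exact absurd rfl hh

/-- The relation number `i` of a structure with `m` binary relations. -/
def rs {m : ℕ} (r : Fin m → ℕ → ℕ → Bool) (i : ℕ) (u v : ℕ) : Prop :=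
  ∃ h : i < m, r ⟨i, h⟩ u v = true

theorem rl_em {m : ℕ} (x : SS m) (i u v : ℕ) : rl (em x).1 i u v ↔ rs x.1 i u v := by
  unfold rl em rs
  by_cases h : i < m
  · simp [h]
  · simp [h]

theorem rl_qt {m : ℕ} (x : SS m) (hirr : ∀ i u, ¬ rs x.1 i u u) (e : ℕ → ℕ) (i u v : ℕ) :
    rl (qt (em x).1 e) i u v ↔ rs x.1 i (e u) (e v) := by
  rw [← rl_em]
  unfold rl qt
  by_cases h : u = v
  · subst h
    have h1 : ¬ ∃ j l : Fin (a2 i), ![u, u] j ≠ ![u, u] l := by
      rintro ⟨j, l, h⟩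
      apply h
      fin_cases j <;> fin_cases l <;> rfl
    have h2 : ¬ rs x.1 i (e u) (e u) := hirr i (e u)
    rw [← rl_em] at h2
    unfold rl at h2
    rw [if_neg h1]
    exact ⟨fun h => absurd h (by decide), fun h => absurd h h2⟩
  · have h1 : ∃ j l : Fin (a2 i), ![u, v] j ≠ ![u, v] l := ⟨0, 1, h⟩
    rw [if_pos h1]
    have e1 : e ∘ ![u, v] = ![e u, e v] := by
      funext j
      fin_cases j <;> rfl
    rw [e1]

theorem inj_of {X : ℕ → Set ℕ} {e : ℕ → ℕ} (h1 : ∀ n, e n ∈ X n)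
    (h3 : ∀ m n, m ≠ n → Disjoint (X m) (X n)) : Function.Injective e := by
  intro m n h
  by_contra hmn
  refine Set.disjoint_left.1 (h3 m n hmn) (h1 m) ?_
  rw [h]
  exact h1 n

/-- Vaught's conjecture for structures all of whose prime parts are in `W`. -/
theorem vs_prime {m : ℕ} {V : (Fin m → ℕ → ℕ → Bool) → Prop} {W : RS a2 → Prop} (hW : VCu W)
    (hirr : ∀ x : SS m, V x.1 → ∀ i u, ¬ rs x.1 i u u)
    (hV : ∀ x : SS m, V x.1 → ∀ e : ℕ → ℕ, Function.Injective e →
      (∀ X : Set ℕ, (∀ i, Mdl (fun u v => rs x.1 i (e u) (e v)) X) →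
        X.Subsingleton ∨ X = univ) →
      ∀ y : RS a2, (∀ i u v, rl y i u v ↔ rs x.1 i (e u) (e v)) → W y) : VS V := by
  refine vs_of_vcu (ts_mod a2 (fun _ => Nat.zero_lt_two) W hW) ?_
  intro x hx X e h1 h2 h3 h4 h5
  have hq := rl_qt x (hirr x hx) e
  refine hV x hx e (inj_of h1 h3) ?_ _ hq
  intro Y hY
  apply h5
  apply mdl875
  intro i
  have e1 : rl (qt (em x).1 e) i = fun u v => rs x.1 i (e u) (e v) := by
    funext u v
    exact propext (hq i u v)
  rw [e1]
  exact hY i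

end Pool.Agent.W878.VC
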