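import Pool.Agent.H566W.Ana
import Pool.Agent.H31R3.AL.Transfer

set_option autoImplicit false

/-!
Transfer of the perfect-set dichotomy along Borel equivariant codings which depend on finitely many
parameters.
-/

namespace Pool.Agent.W878.VC

open Set MeasureTheory

/-- The dichotomy for a set of points in a space with an action of the permutations of `ℕ`. -/
def Dicho {Z : Type} [TopologicalSpace Z] (aZ : Equiv.Perm ℕ → Z → Z) (C : Set Z) : Prop :=
  (∃ f : ℕ → Z, ∀ z ∈ C, ∃ n, ∃ σ : Equiv.Perm ℕ, z = aZ σ (f n)) ∨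
  (∃ g : (ℕ → Bool) → Z, Continuous g ∧ (∀ A, g A ∈ C) ∧
    ∀ A A', (∃ σ : Equiv.Perm ℕ, g A' = aZ σ (g A)) → A = A')

/-- The laws of an action. -/
structure Act {Z : Type} (aZ : Equiv.Perm ℕ → Z → Z) : Prop where
  one : ∀ z, aZ 1 z = z
  mul : ∀ σ τ z, aZ (σ * τ) z = aZ σ (aZ τ z)

theorem Act.inv_apply {Z : Type} {aZ : Equiv.Perm ℕ → Z → Z} (h : Act aZ) (σ : Equiv.Perm ℕ)
    (z : Z) : aZ σ⁻¹ (aZ σ z) = z := by
  rw [← h.mul, inv_mul_cancel, h.one]

theorem Act.apply_inv {Z : Type} {aZ : Equiv.Perm ℕ → Z → Z} (h : Act aZ) (σ : Equiv.Perm ℕ)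
    (z : Z) : aZ σ (aZ σ⁻¹ z) = z := by
  rw [← h.mul, mul_inv_cancel, h.one]

theorem par {Y Z : Type} [Nonempty Y] [TopologicalSpace Y] [PolishSpace Y] [MeasurableSpace Y]
    [BorelSpace Y] [TopologicalSpace Z] [PolishSpace Z] [MeasurableSpace Z] [BorelSpace Z]
    (k : ℕ) {aY : Equiv.Perm ℕ → Y → Y} {aZ : Equiv.Perm ℕ → Z → Z} (hZ : Act aZ)
    (han : AnalyticSet {p : Y × Y | ∃ σ : Equiv.Perm ℕ, p.2 = aY σ p.1})
    (D : Set (Y × (Fin k → ℕ))) (hD : MeasurableSet D)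
    (hDi : ∀ x p, (x, p) ∈ D → ∀ σ : Equiv.Perm ℕ, (aY σ x, ⇑σ ∘ p) ∈ D)
    (c : Y × (Fin k → ℕ) → Z) (hc : Measurable c)
    (hce : ∀ (σ : Equiv.Perm ℕ) x p, c (aY σ x, ⇑σ ∘ p) = aZ σ (c (x, p)))
    (hinj : InjOn c D) (hdich : Dicho aZ (c '' D)) :
    Dicho aY {x | ∃ p, (x, p) ∈ D} := by
  classical
  have hPB : PolishSpace (ℕ → Bool) := Pool.Agent.H533R2.VS.kis_pB ℕ
  have hinv : ∀ (σ : Equiv.Perm ℕ) (p : Fin k → ℕ), ⇑σ ∘ (⇑σ⁻¹ ∘ p) = p := by
    intro σ p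
    funext j
    simp
  rcases hdich with ⟨f, hf⟩ | ⟨g, hg, hgC, hgi⟩
  · left
    have hch : ∀ n, ∃ y : Y, (∃ w q, (w, q) ∈ D ∧ ∃ σ : Equiv.Perm ℕ, c (w, q) = aZ σ (f n)) →
        ∃ q, (y, q) ∈ D ∧ ∃ σ : Equiv.Perm ℕ, c (y, q) = aZ σ (f n) := by
      intro n
      by_cases h : ∃ w q, (w, q) ∈ D ∧ ∃ σ : Equiv.Perm ℕ, c (w, q) = aZ σ (f n)
      · obtain ⟨w, q, h1⟩ := h
        exact ⟨w, fun _ => ⟨q, h1⟩⟩
      · exact ⟨Classical.arbitrary Y, fun h' => absurd h' h⟩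
    choose y hy using hch
    refine ⟨y, ?_⟩
    rintro x ⟨p, hp⟩
    obtain ⟨n, σ, hn⟩ := hf _ ⟨(x, p), hp, rfl⟩
    obtain ⟨q, hq, τ, hτ⟩ := hy n ⟨x, p, hp, σ, hn⟩
    refine ⟨n, σ * τ⁻¹, ?_⟩
    have h1 : c (x, p) = c (aY (σ * τ⁻¹) (y n), ⇑(σ * τ⁻¹) ∘ q) := by
      rw [hce, hτ, hn, hZ.mul, hZ.inv_apply]
    exact congrArg Prod.fst (hinj hp (hDi _ _ hq _) h1)
  · right
    choose W hWD hWc using hgC
    have hsb : StandardBorelSpace D := hD.standardBorel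
    have hcD : Measurable fun x : D => c x.1 := hc.comp measurable_subtype_coe
    have hme : MeasurableEmbedding fun x : D => c x.1 :=
      hcD.measurableEmbedding fun x y h => Subtype.ext (hinj x.2 y.2 h)
    have hW : Measurable fun A => (⟨W A, hWD A⟩ : D) := by
      rw [← hme.measurable_comp_iff]
      have e : ((fun x : D => c x.1) ∘ fun A => (⟨W A, hWD A⟩ : D)) = g := by
        funext A
        exact hWc A
      rw [e]
      exact hg.measurable
    have hW2 : Measurable W := measurable_subtype_coe.comp hW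
    obtain ⟨h0, h1, h2⟩ := Pool.Agent.H31R3.AL.cont_of_borel W hW2
    have h3 : Continuous fun A => (W (h0 A)).1 := continuous_fst.comp h2
    let R : (ℕ → Bool) → (ℕ → Bool) → Prop := fun A A' =>
      ∃ σ : Equiv.Perm ℕ, (W (h0 A')).1 = aY σ (W (h0 A)).1
    have hR : AnalyticSet {p : (ℕ → Bool) × (ℕ → Bool) | R p.1 p.2} := by
      have hcont : Continuous fun p : (ℕ → Bool) × (ℕ → Bool) =>
          ((W (h0 p.1)).1, (W (h0 p.2)).1) :=
        (h3.comp continuous_fst).prodMk (h3.comp continuous_snd)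
      exact han.preimage hcont
    have hcount : ∀ A, {A' | R A A'}.Countable := by
      intro A
      have hch : ∀ A' : ℕ → Bool, ∃ σ : Equiv.Perm ℕ, R A A' →
          (W (h0 A')).1 = aY σ (W (h0 A)).1 := by
        intro A'
        by_cases h : R A A'
        · obtain ⟨σ, hσ⟩ := h
          exact ⟨σ, fun _ => hσ⟩
        · exact ⟨1, fun h' => absurd h' h⟩
      choose s hs using hch
      refine Set.countable_of_injective_of_countable_image
        (f := fun A' => (⇑(s A')⁻¹ ∘ (W (h0 A')).2 : Fin k → ℕ)) ?_ (Set.to_countable _)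
      intro A' hA' A'' hA'' he
      have key : ∀ B, R A B → g (h0 B) =
          aZ (s B) (c ((W (h0 A)).1, ⇑(s B)⁻¹ ∘ (W (h0 B)).2)) := by
        intro B hB
        rw [← hce, hinv, ← hs B hB, ← hWc]
      have k1 := key A' hA'
      have k2 := key A'' hA''
      simp only at he
      rw [← he] at k2
      apply h1
      apply hgi
      refine ⟨s A'' * (s A')⁻¹, ?_⟩
      rw [k1, k2, hZ.mul, hZ.inv_apply]
    obtain ⟨h, hh1, hh2⟩ := Pool.Agent.H566W.perfect_independent R hR hcount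
    refine ⟨fun A => (W (h0 (h A))).1, h3.comp hh1, fun A => ⟨(W (h0 (h A))).2, hWD _⟩, ?_⟩
    rintro A A' ⟨σ, hσ⟩
    by_contra hne
    exact hh2 A A' hne ⟨σ, hσ⟩

end Pool.Agent.W878.VC
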