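import Pool.Agent.W878.VC.Code
import Pool.Agent.W878.VC.Kel

set_option autoImplicit false

/-!
Prime partial orders and prime pairs of linear orders are coded by graphs.
-/

namespace Pool.Agent.W878.VC

open Set MeasureTheory Relation
open Pool.Agent.H533R2.VO (RS)
open Pool.Agent.H533R2.VS (VCu US UIso UDich)

/-- The relation number `i`. -/
def rl (x : RS a2) (i : ℕ) (u v : ℕ) : Prop := x i ![u, v] = true

theorem rl_ext {x y : RS a2} (h : ∀ i u v, rl x i u v ↔ rl y i u v) : x = y := by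
  funext i v
  have e : v = ![v 0, v 1] := by
    funext j
    fin_cases j <;> rfl
  have h1 := h i (v 0) (v 1)
  unfold rl at h1
  rw [← e] at h1
  exact Bool.eq_iff_iff.2 h1

theorem rl_act (σ : Equiv.Perm ℕ) (x : RS a2) (i u v : ℕ) :
    rl (aR σ x) i (σ u) (σ v) ↔ rl x i u v := by
  unfold rl aR
  have e : ⇑σ⁻¹ ∘ ![σ u, σ v] = ![u, v] := by
    funext j
    fin_cases j
    · exact σ.symm_apply_apply u
    · exact σ.symm_apply_apply v
  rw [e]

theorem rl_meas {k : ℕ} (i : ℕ) (j l : Fin k) :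
    MeasurableSet {q : RS a2 × (Fin k → ℕ) | rl q.1 i (q.2 j) (q.2 l)} := by
  have h1 : Continuous fun q : RS a2 × (Fin k → ℕ) => q.1 i ![q.2 j, q.2 l] := by
    refine sat_cont 2 (fun q : RS a2 × (Fin k → ℕ) => q.1 i) (fun q => ![q.2 j, q.2 l])
      ((continuous_apply i).comp continuous_fst) ?_
    refine continuous_pi fun t => ?_
    fin_cases t
    · exact (continuous_apply j).comp continuous_snd
    · exact (continuous_apply l).comp continuous_snd
  exact (isClosed_eq h1 continuous_const).measurableSet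

theorem act_pair (σ : Equiv.Perm ℕ) (u v : ℕ) : ⇑σ⁻¹ ∘ ![u, v] = ![σ⁻¹ u, σ⁻¹ v] := by
  funext j
  fin_cases j <;> rfl

/-- The incomparability graph. -/
def incR (x : RS a2) : Fin 1 → ℕ → ℕ → Bool :=
  fun _ u v => decide (u ≠ v) && (!x 0 ![u, v] && !x 0 ![v, u])

theorem incR_cont : Continuous incR := by
  refine continuous_pi fun _ => continuous_pi fun u => continuous_pi fun v => ?_
  have h1 : Continuous fun x : RS a2 => (x 0 ![u, v], x 0 ![v, u]) :=
    ((continuous_apply _).comp (continuous_apply 0)).prodMk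
      ((continuous_apply _).comp (continuous_apply 0))
  have h2 : Continuous fun p : Bool × Bool => decide (u ≠ v) && (!p.1 && !p.2) :=
    continuous_of_discreteTopology
  exact h2.comp h1

theorem incR_act (σ : Equiv.Perm ℕ) (x : RS a2) : incR (aR σ x) = aF σ (incR x) := by
  funext i u v
  unfold incR aF aR
  rw [act_pair, act_pair]
  congr 1
  rw [decide_eq_decide]
  exact (σ⁻¹.injective.ne_iff).symm

theorem incR_iff (x : RS a2) (u v : ℕ) :
    incR x 0 u v = true ↔ u ≠ v ∧ ¬ rl x 0 u v ∧ ¬ rl x 0 v u := by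
  simp [incR, rl]

/-- Prime partial orders. -/
def W1 (V : (Fin 1 → ℕ → ℕ → Bool) → Prop) (x : RS a2) : Prop :=
  (∀ i, i ≠ 0 → ∀ u v, ¬ rl x i u v) ∧ SPO (rl x 0) ∧ Prm (rl x 0) ∧ V (incR x)

theorem pair_not_triv : ¬ (({0, 1} : Set ℕ).Subsingleton ∨ ({0, 1} : Set ℕ) = univ) := by
  rintro (h | h)
  · exact absurd (h (Or.inl rfl) (Or.inr rfl)) (by decide)
  · have : (2 : ℕ) ∈ ({0, 1} : Set ℕ) := by rw [h]; exact mem_univ 2
    rcases this with h | h
    · exact absurd h (by decide)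
    · exact absurd h (by decide)

theorem ex_lt {lt : ℕ → ℕ → Prop} (hP : Prm lt) : ∃ u v, lt u v := by
  by_contra h
  push Not at h
  exact pair_not_triv (hP _ fun u _ v _ w _ =>
    ⟨⟨fun h1 => absurd h1 (h _ _), fun h1 => absurd h1 (h _ _)⟩,
      ⟨fun h1 => absurd h1 (h _ _), fun h1 => absurd h1 (h _ _)⟩⟩)

theorem forc {lt : ℕ → ℕ → Prop} (h : SPO lt) (p q : ℕ × ℕ) (h1 : lt p.1 p.2)
    (h2 : Stp (Cmp lt) p q) : lt q.1 q.2 := by
  rcases h2 with ⟨e, h3, h4⟩ | ⟨e, h3, h4⟩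
  · rcases h3 with h3 | h3
    · exact h3
    · rw [← e] at h3
      exact absurd (Or.inr (h.trans _ _ _ h3 h1)) h4
  · rcases h3 with h3 | h3
    · exact h3
    · rw [← e] at h3
      exact absurd (Or.inl (h.trans _ _ _ h1 h3)) h4

/-- A prime partial order is determined by its comparability graph and one comparable pair. -/
theorem det {l m : ℕ → ℕ → Prop} (hl : SPO l) (hm : SPO m) (hlP : Prm l)
    (hc : ∀ u v, Cmp l u v ↔ Cmp m u v) {a b : ℕ} (h1 : l a b) (h2 : m a b) (u v : ℕ) :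
    l u v ↔ m u v := by
  have e : Cmp m = Cmp l := by
    funext s t
    exact propext (hc s t).symm
  have hA : Gr (Cmp l) := gr_cmp hl
  have hP : Prm (Cmp l) := kelly hl hlP
  have k1 := orient hA hP (E := l) (fun _ _ h => Or.inl h) (fun _ _ h h' => hl.asymm h h')
    (forc hl) h1 u v
  have hfm := forc hm
  rw [e] at hfm
  have k2 := orient hA hP (E := m) (fun s t h => (hc s t).2 (Or.inl h))
    (fun _ _ h h' => hm.asymm h h') hfm h2 u v
  exact k1.trans k2.symm

theorem vcu_W1 {V : (Fin 1 → ℕ → ℕ → Bool) → Prop} (hV : VS V) : VCu (W1 V) := by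
  refine code (k := 2) hV incR incR_cont incR_act (fun x p => rl x 0 (p 0) (p 1))
    (rl_meas 0 0 1) (fun x p σ h => (rl_act σ x 0 _ _).2 h) ?_ ?_ fun x hx => hx.2.2.2
  · intro x hx
    obtain ⟨u, v, h⟩ := ex_lt hx.2.2.1
    exact ⟨![u, v], h⟩
  · intro x y p hx hy h1 h2 he
    refine rl_ext fun i u v => ?_
    by_cases hi : i = 0
    · subst hi
      refine det hx.2.1 hy.2.1 hx.2.2.1 ?_ h1 h2 u v
      intro s t
      have k1 := incR_iff x s t
      have k2 := incR_iff y s t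
      rw [he] at k1
      have k3 := k1.symm.trans k2
      by_cases hst : s = t
      · subst hst
        exact ⟨fun h => absurd h ((gr_cmp hx.2.1).irr s),
          fun h => absurd h ((gr_cmp hy.2.1).irr s)⟩
      · unfold Cmp
        constructor
        · intro h
          by_contra hc
          rw [not_or] at hc
          obtain ⟨-, h3, h4⟩ := k3.2 ⟨hst, hc.1, hc.2⟩
          exact h.elim h3 h4
        · intro h
          by_contra hc
          rw [not_or] at hc
          obtain ⟨-, h3, h4⟩ := k3.1 ⟨hst, hc.1, hc.2⟩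
          exact h.elim h3 h4
    · exact ⟨fun h => absurd h (hx.1 i hi u v), fun h => absurd h (hy.1 i hi u v)⟩

/-- The inversion graph. -/
def invR (x : RS a2) : Fin 1 → ℕ → ℕ → Bool :=
  fun _ u v => decide (u ≠ v) && (x 0 ![u, v] != x 1 ![u, v])

theorem invR_cont : Continuous invR := by
  refine continuous_pi fun _ => continuous_pi fun u => continuous_pi fun v => ?_
  have h1 : Continuous fun x : RS a2 => (x 0 ![u, v], x 1 ![u, v]) :=
    ((continuous_apply _).comp (continuous_apply 0)).prodMk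
      ((continuous_apply _).comp (continuous_apply 1))
  have h2 : Continuous fun p : Bool × Bool => decide (u ≠ v) && (p.1 != p.2) :=
    continuous_of_discreteTopology
  exact h2.comp h1

theorem invR_act (σ : Equiv.Perm ℕ) (x : RS a2) : invR (aR σ x) = aF σ (invR x) := by
  funext i u v
  unfold invR aF aR
  rw [act_pair]
  congr 1
  rw [decide_eq_decide]
  exact (σ⁻¹.injective.ne_iff).symm

theorem invR_iff (x : RS a2) (u v : ℕ) :
    invR x 0 u v = true ↔ u ≠ v ∧ ¬ (rl x 0 u v ↔ rl x 1 u v) := by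
  unfold invR rl
  rw [Bool.and_eq_true, decide_eq_true_iff]
  refine and_congr_right fun _ => ?_
  cases x 0 ![u, v] <;> cases x 1 ![u, v] <;> simp

/-- Prime pairs of linear orders. -/
def W2 (V : (Fin 1 → ℕ → ℕ → Bool) → Prop) (x : RS a2) : Prop :=
  (∀ i, i ≠ 0 → i ≠ 1 → ∀ u v, ¬ rl x i u v) ∧ SLO (rl x 0) ∧ SLO (rl x 1) ∧
  (∀ X : Set ℕ, Mdl (rl x 0) X → Mdl (rl x 1) X → X.Subsingleton ∨ X = univ) ∧ V (invR x)

theorem spo_P {l m : ℕ → ℕ → Prop} (hl : SLO l) (hm : SLO m) :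
    SPO (fun u v => l u v ∧ m u v) :=
  ⟨fun u h => hl.irr u h.1,
    fun u v w h1 h2 => ⟨hl.trans _ _ _ h1.1 h2.1, hm.trans _ _ _ h1.2 h2.2⟩⟩

theorem spo_Q {l m : ℕ → ℕ → Prop} (hl : SLO l) (hm : SLO m) :
    SPO (fun u v => l u v ∧ m v u) :=
  ⟨fun u h => hl.irr u h.1,
    fun u v w h1 h2 => ⟨hl.trans _ _ _ h1.1 h2.1, hm.trans _ _ _ h2.2 h1.2⟩⟩

/-- Comparability in the intersection. -/
theorem cmp_P {l m : ℕ → ℕ → Prop} (hl : SLO l) (hm : SLO m) (u v : ℕ) :
    Cmp (fun u v => l u v ∧ m u v) u v ↔ u ≠ v ∧ (l u v ↔ m u v) := by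
  unfold Cmp
  constructor
  · rintro (⟨h1, h2⟩ | ⟨h1, h2⟩)
    · refine ⟨?_, fun _ => h2, fun _ => h1⟩
      rintro rfl
      exact hl.irr _ h1
    · refine ⟨?_, fun h => absurd h1 fun h' => hl.asymm h h', fun h => absurd h2 fun h' =>
        hm.asymm h h'⟩
      rintro rfl
      exact hl.irr _ h1
  · rintro ⟨hne, h⟩
    rcases hl.total u v hne with h1 | h1
    · exact Or.inl ⟨h1, h.1 h1⟩
    · rcases hm.total u v hne with h2 | h2
      · exact absurd h1 fun h' => hl.asymm (h.2 h2) h'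
      · exact Or.inr ⟨h1, h2⟩

/-- Comparability in the other intersection. -/
theorem cmp_Q {l m : ℕ → ℕ → Prop} (hl : SLO l) (hm : SLO m) (u v : ℕ) :
    Cmp (fun u v => l u v ∧ m v u) u v ↔ u ≠ v ∧ ¬ (l u v ↔ m u v) := by
  unfold Cmp
  constructor
  · rintro (⟨h1, h2⟩ | ⟨h1, h2⟩)
    · refine ⟨?_, fun h => hm.asymm (h.1 h1) h2⟩
      rintro rfl
      exact hl.irr _ h1
    · refine ⟨?_, fun h => hl.asymm (h.2 h2) h1⟩
      rintro rfl
      exact hl.irr _ h1
  · rintro ⟨hne, h⟩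
    rcases hl.total u v hne with h1 | h1
    · rcases hm.total u v hne with h2 | h2
      · exact absurd ⟨fun _ => h2, fun _ => h1⟩ h
      · exact Or.inl ⟨h1, h2⟩
    · rcases hm.total u v hne with h2 | h2
      · exact Or.inr ⟨h1, h2⟩
      · exact absurd ⟨fun h' => (hl.asymm h' h1).elim, fun h' => (hm.asymm h' h2).elim⟩ h

theorem prm_Q {l m : ℕ → ℕ → Prop} (hl : SLO l) (hm : SLO m)
    (hP : ∀ X : Set ℕ, Mdl l X → Mdl m X → X.Subsingleton ∨ X = univ) :
    Prm (fun u v => l u v ∧ m v u) := by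
  -- the pair of `l` and the converse of `m`
  have hm' : SLO (fun u v => m v u) :=
    ⟨⟨fun u h => hm.irr u h, fun u v w h1 h2 => hm.trans _ _ _ h2 h1⟩,
      fun u v h => (hm.total u v h).symm⟩
  refine kelly2 hl hm' fun X h1 h2 => hP X h1 fun u hu v hv w hw => ?_
  exact ⟨(h2 u hu v hv w hw).2, (h2 u hu v hv w hw).1⟩

theorem vcu_W2 {V : (Fin 1 → ℕ → ℕ → Bool) → Prop} (hV : VS V) : VCu (W2 V) := by
  refine code (k := 4) hV invR invR_cont invR_act (fun x p => (rl x 0 (p 0) (p 1) ∧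
    rl x 1 (p 0) (p 1)) ∧ (rl x 0 (p 2) (p 3) ∧ rl x 1 (p 3) (p 2)))
    (((rl_meas 0 0 1).inter (rl_meas 1 0 1)).inter ((rl_meas 0 2 3).inter (rl_meas 1 3 2)))
    (fun x p σ h => ⟨⟨(rl_act σ x 0 _ _).2 h.1.1, (rl_act σ x 1 _ _).2 h.1.2⟩,
      (rl_act σ x 0 _ _).2 h.2.1, (rl_act σ x 1 _ _).2 h.2.2⟩) ?_ ?_ fun x hx => hx.2.2.2.2
  · intro x hx
    obtain ⟨a, b, h1⟩ := ex_lt (kelly2 hx.2.1 hx.2.2.1 hx.2.2.2.1)
    obtain ⟨c, d, h2⟩ := ex_lt (prm_Q hx.2.1 hx.2.2.1 hx.2.2.2.1)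
    exact ⟨![a, b, c, d], h1, h2⟩
  · intro x y p hx hy h1 h2 he
    have hG : ∀ s t, s ≠ t → ((rl x 0 s t ↔ rl x 1 s t) ↔ (rl y 0 s t ↔ rl y 1 s t)) := by
      intro s t hst
      have k1 := invR_iff x s t
      have k2 := invR_iff y s t
      rw [he] at k1
      have k3 := k1.symm.trans k2
      constructor
      · intro h
        by_contra hc
        exact (k3.2 ⟨hst, hc⟩).2 h
      · intro h
        by_contra hc
        exact (k3.1 ⟨hst, hc⟩).2 h
    have kP : ∀ u v, (rl x 0 u v ∧ rl x 1 u v) ↔ (rl y 0 u v ∧ rl y 1 u v) := by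
      refine det (spo_P hx.2.1 hx.2.2.1) (spo_P hy.2.1 hy.2.2.1)
        (kelly2 hx.2.1 hx.2.2.1 hx.2.2.2.1) ?_ h1.1 h2.1
      intro s t
      rw [cmp_P hx.2.1 hx.2.2.1, cmp_P hy.2.1 hy.2.2.1]
      exact and_congr_right fun hst => hG s t hst
    have kQ : ∀ u v, (rl x 0 u v ∧ rl x 1 v u) ↔ (rl y 0 u v ∧ rl y 1 v u) := by
      refine det (spo_Q hx.2.1 hx.2.2.1) (spo_Q hy.2.1 hy.2.2.1)
        (prm_Q hx.2.1 hx.2.2.1 hx.2.2.2.1) ?_ h1.2 h2.2
      intro s t
      rw [cmp_Q hx.2.1 hx.2.2.1, cmp_Q hy.2.1 hy.2.2.1]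
      exact and_congr_right fun hst => not_congr (hG s t hst)
    have key : ∀ {x y : RS a2}, SLO (rl x 0) → SLO (rl x 1) →
        (∀ u v, (rl x 0 u v ∧ rl x 1 u v) ↔ (rl y 0 u v ∧ rl y 1 u v)) →
        (∀ u v, (rl x 0 u v ∧ rl x 1 v u) ↔ (rl y 0 u v ∧ rl y 1 v u)) →
        ∀ u v, (rl x 0 u v → rl y 0 u v) ∧ (rl x 1 u v → rl y 1 u v) := by
      intro x y hl hm h1 h2 u v
      constructor
      · intro h
        have hne : u ≠ v := by
          rintro rfl
          exact hl.irr _ h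
        rcases hm.total u v hne with h3 | h3
        · exact ((h1 u v).1 ⟨h, h3⟩).1
        · exact ((h2 u v).1 ⟨h, h3⟩).1
      · intro h
        have hne : u ≠ v := by
          rintro rfl
          exact hm.irr _ h
        rcases hl.total u v hne with h3 | h3
        · exact ((h1 u v).1 ⟨h3, h⟩).2
        · exact ((h2 v u).1 ⟨h3, h⟩).2
    refine rl_ext fun i u v => ?_
    by_cases hi : i = 0
    · subst hi
      exact ⟨(key hx.2.1 hx.2.2.1 kP kQ u v).1,
        (key hy.2.1 hy.2.2.1 (fun s t => (kP s t).symm) (fun s t => (kQ s t).symm) u v).1⟩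
    · by_cases hi' : i = 1
      · subst hi'
        exact ⟨(key hx.2.1 hx.2.2.1 kP kQ u v).2,
          (key hy.2.1 hy.2.2.1 (fun s t => (kP s t).symm) (fun s t => (kQ s t).symm) u v).2⟩
      · exact ⟨fun h => absurd h (hx.1 i hi hi' u v), fun h => absurd h (hy.1 i hi hi' u v)⟩

end Pool.Agent.W878.VC
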