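import Pool.Agent.W878.VC.Par
import Pool.Agent.H533R2.VS.All2

set_option autoImplicit false

/-!
Spaces of structures: `m` binary relations and unary predicates; relational structures with unary
predicates.
-/

namespace Pool.Agent.W878.VC

open Set MeasureTheory
open Pool.Agent.H533R2.VO (RS)
open Pool.Agent.H533R2.VS (VCu US UIso UDich)

/-- Structures with `m` binary relations and countably many unary predicates. -/
abbrev SS (m : ℕ) : Type := (Fin m → ℕ → ℕ → Bool) × (ℕ → ℕ → Bool)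

/-- Relabelling. -/
def aS {m : ℕ} (σ : Equiv.Perm ℕ) (x : SS m) : SS m :=
  (fun i u v => x.1 i (σ⁻¹ u) (σ⁻¹ v), fun i u => x.2 i (σ⁻¹ u))

/-- Relabelling. -/
def aU {a : ℕ → ℕ} (σ : Equiv.Perm ℕ) (x : US a) : US a :=
  (fun i v => x.1 i (⇑σ⁻¹ ∘ v), fun i u => x.2 i (σ⁻¹ u))

theorem act_S (m : ℕ) : Act (aS (m := m)) := by
  constructor
  · intro z
    rfl
  · intro σ τ z
    unfold aS
    rw [mul_inv_rev]
    rfl

theorem act_U (a : ℕ → ℕ) : Act (aU (a := a)) := by
  constructor
  · intro z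
    rfl
  · intro σ τ z
    unfold aU
    rw [mul_inv_rev]
    rfl

theorem uiso_iff {a : ℕ → ℕ} (x y : US a) : UIso x y ↔ ∃ σ : Equiv.Perm ℕ, y = aU σ x := by
  constructor
  · rintro ⟨σ, h1, h2⟩
    refine ⟨σ, Prod.ext ?_ ?_⟩
    · funext i v
      have h3 := h1 i (⇑σ⁻¹ ∘ v)
      have e : ⇑σ ∘ (⇑σ⁻¹ ∘ v) = v := by
        funext k
        simp
      rw [e] at h3
      exact h3
    · funext i u
      have h3 := h2 i (σ⁻¹ u)
      rw [show σ (σ⁻¹ u) = u from σ.apply_symm_apply u] at h3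
      exact h3
  · rintro ⟨σ, rfl⟩
    refine ⟨σ, fun i v => ?_, fun i u => ?_⟩
    · have e : ⇑σ⁻¹ ∘ (⇑σ ∘ v) = v := by
        funext k
        simp
      show x.1 i (⇑σ⁻¹ ∘ (⇑σ ∘ v)) = x.1 i v
      rw [e]
    · show x.2 i (σ⁻¹ (σ u)) = x.2 i u
      simp

lemma sat_cont {β : Type} [TopologicalSpace β] (n : ℕ) (h : β → (Fin n → ℕ) → Bool)
    (w : β → (Fin n → ℕ)) (hh : Continuous h) (hw : Continuous w) :
    Continuous fun b => h b (w b) := by
  have h1 : Continuous fun p : ((Fin n → ℕ) → Bool) × (Fin n → ℕ) => p.1 p.2 := by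
    rw [continuous_prod_of_discrete_right]
    intro b
    exact continuous_apply b
  exact h1.comp (hh.prodMk hw)

lemma sat_cont1 {β : Type} [TopologicalSpace β] (h : β → ℕ → Bool)
    (w : β → ℕ) (hh : Continuous h) (hw : Continuous w) :
    Continuous fun b => h b (w b) := by
  have h1 : Continuous fun p : (ℕ → Bool) × ℕ => p.1 p.2 := by
    rw [continuous_prod_of_discrete_right]
    intro b
    exact continuous_apply b
  exact h1.comp (hh.prodMk hw)

lemma sat_cont2 {β : Type} [TopologicalSpace β] (h : β → ℕ → ℕ)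
    (w : β → ℕ) (hh : Continuous h) (hw : Continuous w) :
    Continuous fun b => h b (w b) := by
  have h1 : Continuous fun p : (ℕ → ℕ) × ℕ => p.1 p.2 := by
    rw [continuous_prod_of_discrete_right]
    intro b
    exact continuous_apply b
  exact h1.comp (hh.prodMk hw)

/-- Isomorphism is analytic. -/
theorem ana_U (a : ℕ → ℕ) : AnalyticSet {p : US a × US a | ∃ σ : Equiv.Perm ℕ, p.2 = aU σ p.1} := by
  let Z : Type := ((ℕ → ℕ) × (ℕ → ℕ)) × (US a × US a)
  let S : Set Z := {z | (∀ n, z.1.1 (z.1.2 n) = n) ∧ (∀ n, z.1.2 (z.1.1 n) = n) ∧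
    (∀ (i : ℕ) (v : Fin (a i) → ℕ), z.2.2.1 i (fun j => z.1.1 (v j)) = z.2.1.1 i v) ∧
    ∀ i u, z.2.2.2 i (z.1.1 u) = z.2.1.2 i u}
  have cf : Continuous fun z : Z => z.1.1 := continuous_fst.comp continuous_fst
  have cg : Continuous fun z : Z => z.1.2 := continuous_snd.comp continuous_fst
  have cx : Continuous fun z : Z => z.2.1 := continuous_fst.comp continuous_snd
  have cy : Continuous fun z : Z => z.2.2 := continuous_snd.comp continuous_snd
  have hS : IsClosed S := by
    refine IsClosed.and ?_ (IsClosed.and ?_ (IsClosed.and ?_ ?_))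
    · rw [ofPred_forall]
      refine isClosed_iInter fun n => ?_
      exact isClosed_eq (sat_cont2 _ _ cf ((continuous_apply n).comp cg)) continuous_const
    · rw [ofPred_forall]
      refine isClosed_iInter fun n => ?_
      exact isClosed_eq (sat_cont2 _ _ cg ((continuous_apply n).comp cf)) continuous_const
    · rw [ofPred_forall]
      refine isClosed_iInter fun i => ?_
      rw [ofPred_forall]
      refine isClosed_iInter fun v => ?_
      refine isClosed_eq (sat_cont (a i) (fun z : Z => z.2.2.1 i)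
        (fun z : Z => fun j => z.1.1 (v j)) ?_ ?_) ?_
      · exact (continuous_apply i).comp (continuous_fst.comp cy)
      · exact continuous_pi fun j => (continuous_apply (v j)).comp cf
      · exact (continuous_apply v).comp ((continuous_apply i).comp (continuous_fst.comp cx))
    · rw [ofPred_forall]
      refine isClosed_iInter fun i => ?_
      rw [ofPred_forall]
      refine isClosed_iInter fun u => ?_
      refine isClosed_eq (sat_cont1 (fun z : Z => z.2.2.2 i) (fun z : Z => z.1.1 u) ?_ ?_) ?_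
      · exact (continuous_apply i).comp (continuous_snd.comp cy)
      · exact (continuous_apply u).comp cf
      · exact (continuous_apply u).comp ((continuous_apply i).comp (continuous_snd.comp cx))
  have hZ : PolishSpace (((ℕ → ℕ) × (ℕ → ℕ)) × (US a × US a)) := {}
  have hA : AnalyticSet S := hS.analyticSet
  have hI := hA.image_of_continuous (continuous_snd : Continuous fun z : Z => z.2)
  convert hI using 1
  ext p
  constructor
  · rintro ⟨σ, hσ⟩
    have h1 := (uiso_iff p.1 p.2).2 ⟨σ, hσ⟩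
    obtain ⟨τ, h2, h3⟩ := h1
    exact ⟨((⇑τ, ⇑τ.symm), p), ⟨fun n => τ.apply_symm_apply n, fun n => τ.symm_apply_apply n,
      fun i v => h2 i v, fun i u => h3 i u⟩, rfl⟩
  · rintro ⟨⟨⟨f, g⟩, p'⟩, ⟨h1, h2, h3, h4⟩, rfl⟩
    exact (uiso_iff _ _).1 ⟨⟨f, g, h2, h1⟩, fun i v => h3 i v, fun i u => h4 i u⟩

/-- The constant arity `2`. -/
abbrev a2 : ℕ → ℕ := fun _ => 2

/-- Embedding of the structures with `m` binary relations. -/
def em {m : ℕ} (x : SS m) : US a2 :=
  (fun i v => if h : i < m then x.1 ⟨i, h⟩ (v 0) (v 1) else false, x.2)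

theorem em_act {m : ℕ} (σ : Equiv.Perm ℕ) (x : SS m) : em (aS σ x) = aU σ (em x) := rfl

theorem em_inj {m : ℕ} : Function.Injective (em (m := m)) := by
  intro x y h
  refine Prod.ext ?_ ?_
  · funext i u v
    have h1 := congrFun (congrFun (congrArg Prod.fst h) i.1) ![u, v]
    simp only [em, i.2, dif_pos] at h1
    exact h1
  · exact (congrArg Prod.snd h : (em x).2 = (em y).2)

theorem em_cont {m : ℕ} : Continuous (em (m := m)) := by
  refine Continuous.prodMk ?_ continuous_snd
  refine continuous_pi fun i => continuous_pi fun v => ?_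
  by_cases h : i < m
  · simp only [h, dif_pos]
    exact (continuous_apply (v 1)).comp ((continuous_apply (v 0)).comp
      ((continuous_apply (⟨i, h⟩ : Fin m)).comp continuous_fst))
  · simp only [h, dif_neg, not_false_eq_true]
    exact continuous_const

instance pol_S (m : ℕ) : PolishSpace (SS m) := by
  have h1 : PolishSpace (ℕ → Bool) := Pool.Agent.H533R2.VS.kis_pB ℕ
  have h2 : PolishSpace (ℕ → ℕ → Bool) := inferInstance
  have h3 : PolishSpace (Fin m → ℕ → ℕ → Bool) := inferInstance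
  exact inferInstanceAs (PolishSpace ((Fin m → ℕ → ℕ → Bool) × (ℕ → ℕ → Bool)))

instance bor_S (m : ℕ) : BorelSpace (SS m) := by
  have h1 : BorelSpace (ℕ → ℕ → Bool) := inferInstance
  have s1 : SecondCountableTopology (ℕ → ℕ → Bool) := inferInstance
  have h2 : BorelSpace (Fin m → ℕ → ℕ → Bool) := Pi.borelSpace
  have s2 : SecondCountableTopology (Fin m → ℕ → ℕ → Bool) := inferInstance
  exact Prod.borelSpace

instance pol_U (a : ℕ → ℕ) : PolishSpace (US a) := {}

instance bor_U (a : ℕ → ℕ) : BorelSpace (US a) := by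
  have h0 : ∀ i, BorelSpace ((Fin (a i) → ℕ) → Bool) := fun i => inferInstance
  have s0 : ∀ i, SecondCountableTopology ((Fin (a i) → ℕ) → Bool) := fun i => inferInstance
  have h1 : BorelSpace (RS a) := Pi.borelSpace
  have s1 : SecondCountableTopology (RS a) := inferInstance
  have h2 : BorelSpace (ℕ → ℕ → Bool) := inferInstance
  exact Prod.borelSpace

theorem ana_S (m : ℕ) : AnalyticSet {p : SS m × SS m | ∃ σ : Equiv.Perm ℕ, p.2 = aS σ p.1} := by
  have hP : PolishSpace (SS m × SS m) := {}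
  have h := (ana_U a2).preimage (f := fun p : SS m × SS m => (em p.1, em p.2))
    ((em_cont.comp continuous_fst).prodMk (em_cont.comp continuous_snd))
  convert h using 1
  ext p
  constructor
  · rintro ⟨σ, hσ⟩
    refine ⟨σ, ?_⟩
    show em p.2 = aU σ (em p.1)
    rw [hσ, em_act]
  · rintro ⟨σ, hσ⟩
    refine ⟨σ, em_inj ?_⟩
    rw [em_act]
    exact hσ

/-- The dichotomy in the two forms. -/
theorem dicho_U {a : ℕ → ℕ} (B : Set (US a)) : Dicho aU B ↔ UDich B := by
  constructor
  · rintro (⟨f, hf⟩ | ⟨g, hg, hgB, hgi⟩)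
    · left
      refine ⟨f, fun x hx => ?_⟩
      obtain ⟨n, σ, h⟩ := hf x hx
      exact ⟨n, (uiso_iff _ _).2 ⟨σ, h⟩⟩
    · right
      exact ⟨g, hg, hgB, fun c d h => hgi c d ((uiso_iff _ _).1 h)⟩
  · rintro (⟨f, hf⟩ | ⟨g, hg, hgB, hgi⟩)
    · left
      refine ⟨f, fun x hx => ?_⟩
      obtain ⟨n, h⟩ := hf x hx
      exact ⟨n, (uiso_iff _ _).1 h⟩
    · right
      exact ⟨g, hg, hgB, fun c d h => hgi c d ((uiso_iff _ _).2 h)⟩

/-- Vaught's conjecture for a class of structures with `m` binary relations. -/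
def VS {m : ℕ} (V : (Fin m → ℕ → ℕ → Bool) → Prop) : Prop :=
  ∀ B : Set (SS m), MeasurableSet B → (∀ x ∈ B, ∀ σ, aS σ x ∈ B) → (∀ x ∈ B, V x.1) → Dicho aS B

/-- From the general language to `m` binary relations. -/
theorem vs_of_vcu {m : ℕ} {V : (Fin m → ℕ → ℕ → Bool) → Prop} {W : RS a2 → Prop}
    (hW : VCu W) (hVW : ∀ x : SS m, V x.1 → W (em x).1) : VS V := by
  intro B hB hBi hBV
  have key := par (Y := SS m) (Z := US a2) 0 (act_U a2) (ana_S m)
    (Prod.fst ⁻¹' B) (measurable_fst hB) (fun x p h σ => hBi x h σ) (fun q => em q.1)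
    (em_cont.measurable.comp measurable_fst) (fun σ x p => rfl)
    (fun x _ y _ h => Prod.ext (em_inj h) (Subsingleton.elim _ _)) ?_
  · have e : {x | ∃ p : Fin 0 → ℕ, (x, p) ∈ (Prod.fst ⁻¹' B : Set (SS m × (Fin 0 → ℕ)))} = B := by
      ext x
      exact ⟨fun ⟨_, h⟩ => h, fun h => ⟨fun i => i.elim0, h⟩⟩
    rw [e] at key
    exact key
  · have e : (fun q : SS m × (Fin 0 → ℕ) => em q.1) '' (Prod.fst ⁻¹' B) = em '' B := by
      ext z
      constructor
      · rintro ⟨q, hq, rfl⟩
        exact ⟨q.1, hq, rfl⟩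
      · rintro ⟨x, hx, rfl⟩
        exact ⟨(x, fun i => i.elim0), hx, rfl⟩
    rw [e, dicho_U]
    apply hW
    · exact hB.image_of_measurable_injOn em_cont.measurable em_inj.injOn
    · have h1 : ∀ x y, UIso x y → x ∈ em '' B → y ∈ em '' B := by
        rintro x y hxy ⟨z, hz, rfl⟩
        obtain ⟨σ, rfl⟩ := (uiso_iff _ _).1 hxy
        exact ⟨aS σ z, hBi z hz σ, rfl⟩
      intro x y hxy
      refine ⟨h1 x y hxy, h1 y x ?_⟩
      obtain ⟨σ, rfl⟩ := (uiso_iff _ _).1 hxy
      exact (uiso_iff _ _).2 ⟨σ⁻¹, ((act_U a2).inv_apply σ x).symm⟩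
    · rintro _ ⟨x, hx, rfl⟩
      exact hVW x (hBV x hx)

end Pool.Agent.W878.VC
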